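import Mathlib
import Pool.Agent.TH277.HT.C
set_option autoImplicit false
set_option linter.unusedSectionVars false

/-! Restricted bounds for the one dimensional extension operator: `‖a‖ ≤ 1`, dependence on the
`L¹` norm of `a`. -/

namespace Pool.Agent.Y295.NS

open MeasureTheory Set Complex
open scoped ENNReal NNReal
open Pool.Agent.TH277.HT

variable {H : Type} [NormedAddCommGroup H] [InnerProductSpace ℂ H] [CompleteSpace H]

/-- `L¹` norm of the truncation -/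
noncomputable def nn (a : ℝ → H) : ℝ := ∫ u, ‖tr a u‖

lemma tr_int {a : ℝ → H} (ha : Adm a) : Integrable (tr a) :=
  bdd_int (tr_meas ha) 1 (tr_bd ha) fun _ h => tr_zero a h

lemma nn_nonneg (a : ℝ → H) : 0 ≤ nn a := integral_nonneg fun _ => norm_nonneg _

lemma nn_eq {a : ℝ → H} (ha : Adm a) : ∫⁻ u, ‖tr a u‖ₑ = ENNReal.ofReal (nn a) := by
  unfold nn
  rw [ofReal_integral_norm_eq_lintegral_enorm (tr_int ha)]

lemma tr_e {a : ℝ → H} (ha : Adm a) (u : ℝ) : ‖tr a u‖ₑ ≤ 1 := by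
  rw [← ofReal_norm]
  exact ENNReal.ofReal_le_one.2 (tr_bd ha u)

lemma E1_leN {a : ℝ → H} (ha : Adm a) (x t : ℝ) : ‖E1 a x t‖ ≤ nn a := by
  rw [E1_eq]
  refine (norm_integral_le_integral_norm _).trans (le_of_eq ?_)
  unfold nn
  congr 1
  ext u
  rw [norm_smul, ch_norm, one_mul]

lemma E1_planchN {a : ℝ → H} (ha : Adm a) (t : ℝ) :
    ∫⁻ x : ℝ, ‖E1 a x t‖ₑ ^ 2 ≤ ENNReal.ofReal (nn a) := by
  set φ : ℝ → H := fun u => ch (u ^ 2 * t) • tr a u with hφ
  have hm : StronglyMeasurable φ := by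
    apply StronglyMeasurable.smul
    · have h2 : Continuous fun u : ℝ => ch (u ^ 2 * t) := ch_cont.comp (by fun_prop)
      exact h2.stronglyMeasurable
    · exact tr_meas ha
  have hn : ∀ u, ‖φ u‖ = ‖tr a u‖ := by
    intro u
    rw [hφ]
    simp only
    rw [norm_smul, ch_norm, one_mul]
  have hb : ∀ u, ‖φ u‖ ≤ 1 := fun u => by
    rw [hn u]
    exact tr_bd ha u
  have h0 : ∀ u, u ∉ Icc (-1 : ℝ) 1 → φ u = 0 := by
    intro u hu
    rw [hφ]
    simp only
    rw [tr_zero a hu, smul_zero]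
  have h1 := planch1 φ (bdd_int hm 1 hb h0) (bdd_L2 hm 1 hb h0)
  have h2 : ∀ x, E1 a x t = ∫ u : ℝ, ch (u * x) • φ u := by
    intro x
    rw [E1_eq]
    apply integral_congr_ae
    refine ae_of_all _ fun u => ?_
    simp only [hφ]
    rw [smul_smul, ← ch_add]
  simp only [h2]
  rw [h1, ← nn_eq ha]
  apply lintegral_mono
  intro u
  simp only
  have h3 : ‖φ u‖ₑ = ‖tr a u‖ₑ := by
    rw [← ofReal_norm, hn u, ofReal_norm]
  rw [h3, pow_two]
  calc ‖tr a u‖ₑ * ‖tr a u‖ₑ ≤ ‖tr a u‖ₑ * 1 := by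
        gcongr
        exact tr_e ha u
    _ = ‖tr a u‖ₑ := mul_one _

lemma ker_leN (a : ℝ → H) (v u : ℝ) : ‖ker a v u‖ ≤ ‖tr a v‖ * ‖tr a u‖ := by
  unfold ker
  exact norm_inner_le_norm _ _

lemma W_leN {a : ℝ → H} (ha : Adm a) (α τ : ℝ) : ‖W a α τ‖ ≤ nn a := by
  unfold W nn
  refine (norm_integral_le_integral_norm _).trans ?_
  apply integral_mono_of_nonneg (ae_of_all _ fun _ => norm_nonneg _) (tr_int ha).norm
  refine ae_of_all _ fun v => ?_
  simp only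
  rw [norm_smul, ch_norm, one_mul]
  refine (ker_leN a _ _).trans ?_
  exact mul_le_of_le_one_right (norm_nonneg _) (tr_bd ha _)

lemma PP_leN {a : ℝ → H} (ha : Adm a) (α t : ℝ) : ‖PP a α t‖ ≤ nn a := by
  rw [PP_norm]
  exact W_leN ha _ _

lemma W_planchN {a : ℝ → H} (ha : Adm a) (α : ℝ) :
    ∫⁻ τ : ℝ, ‖W a α τ‖ₑ ^ 2 ≤ ∫⁻ v, ‖tr a v‖ₑ * ‖tr a (v + α)‖ₑ := by
  unfold W
  rw [planch1 _ (int_of_supp (kerv_meas ha α) 1 1 (fun v => ker_le ha _ _) (kerv_zero α))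
    (L2_of_supp (kerv_meas ha α) 1 1 (fun v => ker_le ha _ _) (kerv_zero α))]
  apply lintegral_mono
  intro v
  simp only
  have h1 : ‖ker a v (v + α)‖ₑ ≤ ‖tr a v‖ₑ * ‖tr a (v + α)‖ₑ := by
    rw [← ofReal_norm, ← ofReal_norm, ← ofReal_norm, ← ENNReal.ofReal_mul (norm_nonneg _)]
    exact ENNReal.ofReal_le_ofReal (ker_leN a _ _)
  have h2 : ‖ker a v (v + α)‖ₑ ≤ 1 := by
    rw [← ofReal_norm]
    exact ENNReal.ofReal_le_one.2 (ker_le ha _ _)
  calc ‖ker a v (v + α)‖ₑ ^ 2 = ‖ker a v (v + α)‖ₑ * ‖ker a v (v + α)‖ₑ := pow_two _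
    _ ≤ (‖tr a v‖ₑ * ‖tr a (v + α)‖ₑ) * 1 := by gcongr
    _ = _ := mul_one _

lemma PP_timeN {a : ℝ → H} (ha : Adm a) {α : ℝ} (hα : α ≠ 0) :
    ∫⁻ t : ℝ, ‖PP a α t‖ₑ ^ 2 ≤
      ENNReal.ofReal (|α|⁻¹) * ∫⁻ v, ‖tr a v‖ₑ * ‖tr a (v + α)‖ₑ := by
  have h1 : ∀ t, ‖PP a α t‖ₑ ^ 2 = (fun τ => ‖W a α τ‖ₑ ^ 2) ((2 * α) * t) := by
    intro t
    simp only
    rw [← ofReal_norm, PP_norm, ofReal_norm]
  simp only [h1]
  rw [lint_mul (2 * α) (by simpa using hα) (fun τ => ‖W a α τ‖ₑ ^ 2)]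
  have h2 : ENNReal.ofReal |(2 * α)⁻¹| ≤ ENNReal.ofReal (|α|⁻¹) := by
    apply ENNReal.ofReal_le_ofReal
    rw [abs_inv, abs_mul, abs_of_pos (two_pos : (0 : ℝ) < 2), mul_inv]
    have : 0 ≤ |α|⁻¹ := by positivity
    linarith
  exact mul_le_mul' h2 (W_planchN ha α)

/-- splitting off the far part -/
lemma E1_sq_leN {a : ℝ → H} (ha : Adm a) {δ : ℝ} (hδ : 0 < δ) (x t : ℝ) :
    ‖E1 a x t‖ ^ 2 ≤ 2 * δ * nn a + ‖G2 a δ x t‖ := by
  have h0 : Integrable fun α : ℝ => ch (α * x) * PP a α t := by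
    apply int_of_supp _ 2 2
    · intro α
      rw [norm_mul, ch_norm, one_mul]
      exact PP_le ha α t
    · intro α h
      rw [PP_zero h t, mul_zero]
    · exact (ch_cont.comp (by fun_prop : Continuous fun α : ℝ => α * x)).stronglyMeasurable.mul
        (PPt_meas ha t)
  have h1 := E1_sq ha x t
  rw [← integral_add_compl (far_meas δ) h0] at h1
  have h2 : ∫ α in far δ, ch (α * x) * PP a α t = G2 a δ x t := by
    unfold G2
    rw [← integral_indicator (far_meas δ)]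
    apply integral_congr_ae
    refine ae_of_all _ fun α => ?_
    simp only
    by_cases h : α ∈ far δ
    · rw [indicator_of_mem h, indicator_of_mem h, smul_eq_mul]
    · rw [indicator_of_notMem h, indicator_of_notMem h, smul_zero]
  have hc : (far δ)ᶜ = Icc (-δ) δ := by
    ext α
    simp only [far, mem_compl_iff, mem_ofPred_eq, not_lt, mem_Icc]
    exact abs_le
  have h3 : ‖∫ α in (far δ)ᶜ, ch (α * x) * PP a α t‖ ≤ 2 * δ * nn a := by
    rw [hc]
    calc ‖∫ α in Icc (-δ) δ, ch (α * x) * PP a α t‖ ≤ nn a * (volume (Icc (-δ) δ)).toReal := by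
          apply norm_setIntegral_le_of_norm_le_const
          · rw [Real.volume_Icc]
            exact ENNReal.ofReal_lt_top
          · intro α _
            rw [norm_mul, ch_norm, one_mul]
            exact PP_leN ha α t
      _ = 2 * δ * nn a := by
          rw [Real.volume_Icc, ENNReal.toReal_ofReal (by linarith)]
          ring
  have h4 : ‖((‖E1 a x t‖ ^ 2 : ℝ) : ℂ)‖ = ‖E1 a x t‖ ^ 2 := by
    rw [Complex.norm_real, Real.norm_of_nonneg (by positivity)]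
  rw [← h4, h1, h2]
  refine (norm_add_le _ _).trans ?_
  linarith

/-- Hoelder for the singular integral -/
lemma hoel {a : ℝ → H} (ha : Adm a) {ε δ : ℝ} (hε : 0 < ε) (hε1 : ε < 1) (hδ : 0 < δ) (v : ℝ) :
    ∫⁻ α in far δ, ENNReal.ofReal (|α|⁻¹) * ‖tr a (v + α)‖ₑ ≤
      ENNReal.ofReal ((2 * ((1 - ε) / ε)) ^ (1 - ε) * (nn a ^ ε * δ ^ (-ε))) := by
  have h1e : 0 < 1 - ε := by linarith
  have hpq : Real.HolderConjugate (1 / (1 - ε)) (1 / ε) := by
    rw [Real.holderConjugate_iff]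
    refine ⟨?_, ?_⟩
    · rw [lt_div_iff₀ h1e]; linarith
    · rw [one_div, inv_inv, one_div, inv_inv]; ring
  have hm1 : AEMeasurable (fun α : ℝ => ENNReal.ofReal (|α|⁻¹)) (volume.restrict (far δ)) := by
    apply Measurable.aemeasurable
    have h5 : Measurable fun α : ℝ => |α| := by fun_prop
    exact h5.inv.ennreal_ofReal
  have hm2 : AEMeasurable (fun α : ℝ => ‖tr a (v + α)‖ₑ) (volume.restrict (far δ)) := by
    apply Measurable.aemeasurable
    exact ((tr_meas ha).comp_measurable (by fun_prop : Measurable fun α : ℝ => v + α)).enorm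
  have h := ENNReal.lintegral_mul_le_Lp_mul_Lq (volume.restrict (far δ)) hpq hm1 hm2
  refine h.trans ?_
  have e1 : ∫⁻ α in far δ, ENNReal.ofReal (|α|⁻¹) ^ (1 / (1 - ε)) ≤
      ENNReal.ofReal (2 * (δ ^ (-(ε / (1 - ε))) / (ε / (1 - ε)))) := by
    have h2 := far_int (ε := ε / (1 - ε)) (δ := δ) (by positivity) hδ
    rw [ENNReal.ofReal_mul (by norm_num), show ENNReal.ofReal 2 = 2 by norm_num]
    refine le_trans (le_of_eq ?_) h2
    apply setLIntegral_congr_fun (far_meas δ)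
    intro α hα
    have hα0 : 0 < |α| := hδ.trans hα
    simp only
    rw [ENNReal.ofReal_rpow_of_nonneg (by positivity) (by positivity), ← Real.rpow_neg_one,
      ← Real.rpow_mul hα0.le]
    congr 2
    field_simp
    ring
  have e2 : ∫⁻ α in far δ, ‖tr a (v + α)‖ₑ ^ (1 / ε) ≤ ENNReal.ofReal (nn a) := by
    rw [← nn_eq ha]
    calc ∫⁻ α in far δ, ‖tr a (v + α)‖ₑ ^ (1 / ε) ≤ ∫⁻ α, ‖tr a (v + α)‖ₑ := by
          refine (setLIntegral_le_lintegral _ _).trans ?_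
          apply lintegral_mono
          intro α
          simp only
          have h3 := tr_e ha (v + α)
          calc ‖tr a (v + α)‖ₑ ^ (1 / ε) ≤ ‖tr a (v + α)‖ₑ ^ (1 : ℝ) := by
                apply ENNReal.rpow_le_rpow_of_exponent_ge h3
                rw [le_div_iff₀ hε]; linarith
            _ = _ := ENNReal.rpow_one _
      _ = ∫⁻ α, ‖tr a α‖ₑ := lintegral_add_left_eq_self (fun α => ‖tr a α‖ₑ) v
  have e3 : (∫⁻ α in far δ, ENNReal.ofReal (|α|⁻¹) ^ (1 / (1 - ε))) ^ (1 / (1 / (1 - ε))) ≤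
      ENNReal.ofReal ((2 * ((1 - ε) / ε)) ^ (1 - ε) * δ ^ (-ε)) := by
    rw [one_div_one_div]
    refine (ENNReal.rpow_le_rpow e1 h1e.le).trans (le_of_eq ?_)
    have h6 : 0 ≤ δ ^ (-(ε / (1 - ε))) := Real.rpow_nonneg hδ.le _
    rw [ENNReal.ofReal_rpow_of_nonneg (by positivity) h1e.le]
    congr 1
    rw [show 2 * (δ ^ (-(ε / (1 - ε))) / (ε / (1 - ε))) =
      2 * ((1 - ε) / ε) * δ ^ (-(ε / (1 - ε))) by field_simp,
      Real.mul_rpow (by positivity) h6, ← Real.rpow_mul hδ.le]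
    congr 2
    field_simp
  have e4 : (∫⁻ α in far δ, ‖tr a (v + α)‖ₑ ^ (1 / ε)) ^ (1 / (1 / ε)) ≤
      ENNReal.ofReal (nn a ^ ε) := by
    rw [one_div_one_div, ← ENNReal.ofReal_rpow_of_nonneg (nn_nonneg a) hε.le]
    exact ENNReal.rpow_le_rpow e2 hε.le
  refine (mul_le_mul' e3 e4).trans (le_of_eq ?_)
  have h7 : 0 ≤ δ ^ (-ε) := Real.rpow_nonneg hδ.le _
  rw [← ENNReal.ofReal_mul (by positivity)]
  congr 1
  ring

/-- the `L²` bound of the far part -/
lemma G2_intN {a : ℝ → H} (ha : Adm a) {ε δ : ℝ} (hε : 0 < ε) (hε1 : ε < 1) (hδ : 0 < δ) :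
    ∫⁻ p : ℝ × ℝ, ‖G2 a δ p.1 p.2‖ₑ ^ 2 ≤
      ENNReal.ofReal ((2 * ((1 - ε) / ε)) ^ (1 - ε) * (nn a ^ ε * δ ^ (-ε)) * nn a) := by
  have hm : Measurable fun p : ℝ × ℝ => ‖G2 a δ p.1 p.2‖ₑ ^ 2 :=
    (G2_meas ha δ).measurable.enorm.pow_const 2
  rw [Measure.volume_eq_prod, lintegral_prod_symm _ hm.aemeasurable]
  simp only [G2_planch ha]
  have hm2 : Measurable fun p : ℝ × ℝ =>
      ‖(far δ).indicator (fun α => PP a α p.1) p.2‖ₑ ^ 2 := by
    have h2 : (fun q : ℝ × ℝ => (far δ).indicator (fun α => PP a α q.1) q.2) =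
        ({q : ℝ × ℝ | q.2 ∈ far δ}).indicator fun q => PP a q.2 q.1 := by
      ext q
      by_cases h : q.2 ∈ far δ
      · rw [indicator_of_mem h, indicator_of_mem (show q ∈ {q : ℝ × ℝ | q.2 ∈ far δ} from h)]
      · rw [indicator_of_notMem h, indicator_of_notMem (show q ∉ {q : ℝ × ℝ | q.2 ∈ far δ} from h)]
    have h3 : Measurable fun q : ℝ × ℝ => (far δ).indicator (fun α => PP a α q.1) q.2 := by
      rw [h2]
      apply Measurable.indicator
      · exact ((PP_meas ha).comp_measurable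
          (by fun_prop : Measurable fun q : ℝ × ℝ => ((q.2, q.1) : ℝ × ℝ))).measurable
      · exact measurable_snd (far_meas δ)
    exact h3.enorm.pow_const 2
  rw [lintegral_lintegral_swap (f := fun t α => ‖(far δ).indicator (fun α => PP a α t) α‖ₑ ^ 2)
    hm2.aemeasurable]
  have hma : Measurable fun u : ℝ => ‖tr a u‖ₑ := (tr_meas ha).enorm
  have hm3 : Measurable fun p : ℝ × ℝ =>
      ENNReal.ofReal (|p.1|⁻¹) * (‖tr a p.2‖ₑ * ‖tr a (p.2 + p.1)‖ₑ) := by
    have h5 : Measurable fun p : ℝ × ℝ => |p.1| := by fun_prop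
    exact h5.inv.ennreal_ofReal.mul ((hma.comp measurable_snd).mul
      (hma.comp (by fun_prop : Measurable fun p : ℝ × ℝ => p.2 + p.1)))
  calc ∫⁻ α, ∫⁻ t, ‖(far δ).indicator (fun α => PP a α t) α‖ₑ ^ 2
      ≤ ∫⁻ α, (far δ).indicator
          (fun α => ∫⁻ v, ENNReal.ofReal (|α|⁻¹) * (‖tr a v‖ₑ * ‖tr a (v + α)‖ₑ)) α := by
        apply lintegral_mono
        intro α
        simp only
        by_cases h : α ∈ far δ
        · simp only [indicator_of_mem h]
          have hα0 : 0 < |α| := hδ.trans h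
          refine (PP_timeN ha (abs_pos.1 hα0)).trans (le_of_eq ?_)
          rw [lintegral_const_mul]
          exact hma.mul (hma.comp (by fun_prop : Measurable fun v : ℝ => v + α))
        · simp only [indicator_of_notMem h, enorm_zero]
          simp
    _ = ∫⁻ α in far δ, ∫⁻ v, ENNReal.ofReal (|α|⁻¹) * (‖tr a v‖ₑ * ‖tr a (v + α)‖ₑ) := by
        rw [lintegral_indicator (far_meas δ)]
    _ = ∫⁻ v, ∫⁻ α in far δ, ENNReal.ofReal (|α|⁻¹) * (‖tr a v‖ₑ * ‖tr a (v + α)‖ₑ) := by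
        rw [lintegral_lintegral_swap
          (f := fun α v => ENNReal.ofReal (|α|⁻¹) * (‖tr a v‖ₑ * ‖tr a (v + α)‖ₑ))]
        exact hm3.aemeasurable
    _ ≤ ∫⁻ v, ‖tr a v‖ₑ *
          ENNReal.ofReal ((2 * ((1 - ε) / ε)) ^ (1 - ε) * (nn a ^ ε * δ ^ (-ε))) := by
        apply lintegral_mono
        intro v
        simp only
        have e : ∫⁻ α in far δ, ENNReal.ofReal (|α|⁻¹) * (‖tr a v‖ₑ * ‖tr a (v + α)‖ₑ) =
            ‖tr a v‖ₑ * ∫⁻ α in far δ, ENNReal.ofReal (|α|⁻¹) * ‖tr a (v + α)‖ₑ := by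
          rw [← lintegral_const_mul']
          · apply lintegral_congr
            intro α
            ring
          · exact ((tr_e ha v).trans_lt ENNReal.one_lt_top).ne
        rw [e]
        gcongr
        exact hoel ha hε hε1 hδ v
    _ = _ := by
        rw [lintegral_mul_const _ hma, nn_eq ha, ← ENNReal.ofReal_mul (nn_nonneg a), mul_comm]

/-- the level sets -/
lemma levelN {a : ℝ → H} (ha : Adm a) {ε l : ℝ} (hε : 0 < ε) (hε1 : ε < 1) (hl : 0 < l)
    (hn : 0 < nn a) :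
    volume {p : ℝ × ℝ | l < ‖E1 a p.1 p.2‖ ^ 2} ≤
      ENNReal.ofReal (4 * 4 ^ ε * (2 * ((1 - ε) / ε)) ^ (1 - ε) * nn a ^ (1 + 2 * ε) *
        l ^ (-2 - ε)) := by
  set δ := l / (4 * nn a) with hδd
  have hδ : 0 < δ := by positivity
  have h1 : {p : ℝ × ℝ | l < ‖E1 a p.1 p.2‖ ^ 2} ⊆
      {p : ℝ × ℝ | ENNReal.ofReal ((l / 2) ^ 2) ≤ ‖G2 a δ p.1 p.2‖ₑ ^ 2} := by
    intro p hp
    have h2 := E1_sq_leN ha hδ p.1 p.2
    have h3 : l / 2 ≤ ‖G2 a δ p.1 p.2‖ := by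
      have h4 : l < ‖E1 a p.1 p.2‖ ^ 2 := hp
      have h5 : 2 * δ * nn a = l / 2 := by
        rw [hδd]
        field_simp
        ring
      linarith
    show ENNReal.ofReal ((l / 2) ^ 2) ≤ ‖G2 a δ p.1 p.2‖ₑ ^ 2
    rw [ENNReal.ofReal_pow (by positivity), ← ofReal_norm]
    gcongr
  refine (measure_mono h1).trans ?_
  have hm : Measurable fun p : ℝ × ℝ => ‖G2 a δ p.1 p.2‖ₑ ^ 2 :=
    (G2_meas ha _).measurable.enorm.pow_const 2
  have hl2 : 0 < (l / 2) ^ 2 := by positivity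
  refine (meas_ge_le_lintegral_div hm.aemeasurable (by simpa using hl2.ne')
    ENNReal.ofReal_ne_top).trans ?_
  calc (∫⁻ p : ℝ × ℝ, ‖G2 a δ p.1 p.2‖ₑ ^ 2) / ENNReal.ofReal ((l / 2) ^ 2)
      ≤ ENNReal.ofReal ((2 * ((1 - ε) / ε)) ^ (1 - ε) * (nn a ^ ε * δ ^ (-ε)) * nn a) /
          ENNReal.ofReal ((l / 2) ^ 2) := by
        gcongr
        exact G2_intN ha hε hε1 hδ
    _ = _ := by
        rw [← ENNReal.ofReal_div_of_pos hl2]
        congr 1
        rw [hδd, Real.div_rpow hl.le (by positivity), Real.mul_rpow (by norm_num) hn.le,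
          Real.rpow_neg (by norm_num : (0 : ℝ) ≤ 4), Real.rpow_neg hn.le,
          show -2 - ε = -ε + -2 by ring, Real.rpow_add hl, Real.rpow_neg hl.le 2,
          Real.rpow_two, show 1 + 2 * ε = ε + ε + 1 by ring, Real.rpow_add hn, Real.rpow_add hn,
          Real.rpow_one]
        have h8 : 0 < nn a ^ ε := Real.rpow_pos_of_pos hn _
        have h9 : (0 : ℝ) < 4 ^ ε := Real.rpow_pos_of_pos (by norm_num) _
        field_simp
        ring

/-- The restricted `L^{2r}` bound, `r > 2`. -/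
theorem zygN (r : ℝ) (hr : 2 < r) : ∃ C : ℝ, 0 ≤ C ∧ ∀ (H : Type) [NormedAddCommGroup H]
    [InnerProductSpace ℂ H] [CompleteSpace H] (a : ℝ → H), Adm a →
    ∫⁻ p : ℝ × ℝ, ENNReal.ofReal ((‖E1 a p.1 p.2‖ ^ 2) ^ r) ≤
      ENNReal.ofReal (C * nn a ^ (2 * r - 3)) := by
  set ε : ℝ := min ((r - 2) / 2) (1 / 2) with hε
  have hε0 : 0 < ε := by rw [hε]; exact lt_min (by linarith) (by norm_num)
  have hε1 : ε < 1 := by rw [hε]; exact lt_of_le_of_lt (min_le_right _ _) (by norm_num)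
  have hεr : ε < r - 2 := by
    rw [hε]; exact lt_of_le_of_lt (min_le_left _ _) (by linarith)
  set K : ℝ := 4 * 4 ^ ε * (2 * ((1 - ε) / ε)) ^ (1 - ε) with hK
  have hK0 : 0 < K := by
    have : 0 < 1 - ε := by linarith
    rw [hK]
    positivity
  refine ⟨r * (K / (r - 2 - ε)), by
    have : 0 < r - 2 - ε := by linarith
    positivity, ?_⟩
  intro H _ _ _ a ha
  rcases (nn_nonneg a).eq_or_lt with hn | hn
  · have h1 : ∀ p : ℝ × ℝ, ENNReal.ofReal ((‖E1 a p.1 p.2‖ ^ 2) ^ r) = 0 := by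
      intro p
      have h2 := E1_leN ha p.1 p.2
      rw [← hn] at h2
      have h3 : ‖E1 a p.1 p.2‖ = 0 := le_antisymm h2 (norm_nonneg _)
      rw [h3]
      rw [zero_pow two_ne_zero, Real.zero_rpow (by linarith), ENNReal.ofReal_zero]
    simp only [h1, lintegral_zero]
    exact zero_le
  have hm : Measurable fun p : ℝ × ℝ => ‖E1 a p.1 p.2‖ ^ 2 := (E1_meas ha).norm.measurable.pow_const 2
  rw [lintegral_rpow_eq_lintegral_meas_lt_mul volume (ae_of_all _ fun p => by positivity)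
    hm.aemeasurable (by linarith)]
  set L := nn a ^ 2 with hL
  have hL0 : 0 < L := by positivity
  have h2 : ∫⁻ l in Ioi L, volume {p : ℝ × ℝ | l < ‖E1 a p.1 p.2‖ ^ 2} *
      ENNReal.ofReal (l ^ (r - 1)) = 0 := by
    rw [setLIntegral_congr_fun (g := fun _ => 0) measurableSet_Ioi, lintegral_zero]
    intro l hl
    simp only
    have h3 : {p : ℝ × ℝ | l < ‖E1 a p.1 p.2‖ ^ 2} = ∅ := by
      ext p
      simp only [mem_ofPred_eq, mem_empty_iff_false, iff_false, not_lt]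
      have h4 := E1_leN ha p.1 p.2
      have h5 : ‖E1 a p.1 p.2‖ ^ 2 ≤ nn a ^ 2 := by gcongr
      have h6 : L < l := hl
      linarith
    rw [h3, measure_empty, zero_mul]
  have h3 : ∫⁻ l in Ioc 0 L, volume {p : ℝ × ℝ | l < ‖E1 a p.1 p.2‖ ^ 2} *
      ENNReal.ofReal (l ^ (r - 1)) ≤
      ENNReal.ofReal (K * nn a ^ (1 + 2 * ε) * (L ^ (r - 2 - ε) / (r - 2 - ε))) := by
    have h4 : ∫⁻ l in Ioc 0 L, volume {p : ℝ × ℝ | l < ‖E1 a p.1 p.2‖ ^ 2} *
      ENNReal.ofReal (l ^ (r - 1)) ≤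
        ∫⁻ l in Ioc 0 L, ENNReal.ofReal (K * nn a ^ (1 + 2 * ε) * l ^ (r - 3 - ε)) := by
      apply setLIntegral_mono' measurableSet_Ioc
      intro l hl
      calc volume {p : ℝ × ℝ | l < ‖E1 a p.1 p.2‖ ^ 2} * ENNReal.ofReal (l ^ (r - 1))
          ≤ ENNReal.ofReal (K * nn a ^ (1 + 2 * ε) * l ^ (-2 - ε)) *
              ENNReal.ofReal (l ^ (r - 1)) := by
            gcongr
            exact levelN ha hε0 hε1 hl.1 hn
        _ = ENNReal.ofReal (K * nn a ^ (1 + 2 * ε) * l ^ (r - 3 - ε)) := by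
            have h5 : 0 ≤ l ^ (-2 - ε) := Real.rpow_nonneg hl.1.le _
            rw [← ENNReal.ofReal_mul (by positivity), mul_assoc,
              ← Real.rpow_add hl.1]
            congr 3
            ring
    refine h4.trans (le_of_eq ?_)
    have h5 : IntervalIntegrable (fun l : ℝ => K * nn a ^ (1 + 2 * ε) * l ^ (r - 3 - ε))
        volume 0 L :=
      (intervalIntegral.intervalIntegrable_rpow' (by linarith)).const_mul _
    rw [← ofReal_integral_eq_lintegral_ofReal]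
    · congr 1
      rw [← intervalIntegral.integral_of_le hL0.le, intervalIntegral.integral_const_mul,
        integral_rpow (Or.inl (by linarith))]
      rw [show r - 3 - ε + 1 = r - 2 - ε by ring, Real.zero_rpow (by linarith), sub_zero]
    · rw [intervalIntegrable_iff_integrableOn_Ioc_of_le hL0.le] at h5
      exact h5
    · refine (ae_restrict_iff' measurableSet_Ioc).2 (ae_of_all _ fun l hl => ?_)
      have h6 : 0 ≤ l ^ (r - 3 - ε) := Real.rpow_nonneg hl.1.le _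
      positivity
  calc ENNReal.ofReal r * ∫⁻ l in Ioi 0, volume {p : ℝ × ℝ | l < ‖E1 a p.1 p.2‖ ^ 2} *
        ENNReal.ofReal (l ^ (r - 1))
      ≤ ENNReal.ofReal r *
        ENNReal.ofReal (K * nn a ^ (1 + 2 * ε) * (L ^ (r - 2 - ε) / (r - 2 - ε))) := by
        gcongr
        rw [← Ioc_union_Ioi_eq_Ioi hL0.le]
        refine (lintegral_union_le _ _ _).trans ?_
        rw [h2, add_zero]
        exact h3
    _ = _ := by
        rw [← ENNReal.ofReal_mul (by linarith)]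
        congr 1
        rw [hL, ← Real.rpow_natCast (nn a) 2, ← Real.rpow_mul hn.le]
        have h7 : nn a ^ (2 * r - 3) =
            nn a ^ (1 + 2 * ε) * nn a ^ (((2 : ℕ) : ℝ) * (r - 2 - ε)) := by
          rw [← Real.rpow_add hn]
          congr 1
          push_cast
          ring
        rw [h7]
        ring

end Pool.Agent.Y295.NS
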