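import Mathlib
import Pool.Agent.Y295.NS.A
import Pool.Agent.W354.LS.Kern
set_option autoImplicit false
set_option linter.unusedSectionVars false

/-! The extension operator on the plane and its restricted bounds on tensors. -/

namespace Pool.Agent.Y295.NS

open MeasureTheory Set Complex Filter Topology
open scoped ENNReal NNReal
open Pool.Agent.TH277.HT

lemma E1t_meas {H : Type} [NormedAddCommGroup H] [InnerProductSpace ℂ H] [CompleteSpace H]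
    {a : ℝ → H} (ha : Adm a) (t : ℝ) : StronglyMeasurable fun x : ℝ => E1 a x t :=
  (E1_meas ha).comp_measurable (by fun_prop : Measurable fun x : ℝ => ((x, t) : ℝ × ℝ))

/-- The mixed norm bound. -/
theorem mixN (q : ℝ) (hq : 3 < q) : ∃ C : ℝ, 0 ≤ C ∧ ∀ (H : Type) [NormedAddCommGroup H]
    [InnerProductSpace ℂ H] [CompleteSpace H] (a : ℝ → H), Adm a →
    ∫⁻ t : ℝ, (∫⁻ x : ℝ, ‖E1 a x t‖ₑ ^ q) ^ (2 : ℝ) ≤ ENNReal.ofReal (C * nn a ^ (2 * q - 4)) := by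
  obtain ⟨C, hC0, hC⟩ := zygN (q - 1) (by linarith)
  set Q : ℝ := 2 * q - 2 with hQ
  refine ⟨C, hC0, ?_⟩
  intro H _ _ _ a ha
  have hm : ∀ t, Measurable fun x : ℝ => ‖E1 a x t‖ₑ := fun t => (E1t_meas ha t).enorm
  -- Hölder's inequality at a fixed time
  have h1 : ∀ t : ℝ, (∫⁻ x : ℝ, ‖E1 a x t‖ₑ ^ q) ^ (2 : ℝ) ≤
      ENNReal.ofReal (nn a) * ∫⁻ x : ℝ, ‖E1 a x t‖ₑ ^ Q := by
    intro t
    have h2 : ∀ x : ℝ, ‖E1 a x t‖ₑ ^ q =
        (‖E1 a x t‖ₑ ^ 2) ^ (1 / 2 : ℝ) * (‖E1 a x t‖ₑ ^ Q) ^ (1 / 2 : ℝ) := by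
      intro x
      rw [← ENNReal.rpow_natCast, ← ENNReal.rpow_mul, ← ENNReal.rpow_mul,
        ← ENNReal.rpow_add_of_nonneg _ _ (by norm_num) (by rw [hQ]; linarith)]
      congr 1
      rw [hQ]
      push_cast
      ring
    have h3 : ∫⁻ x : ℝ, ‖E1 a x t‖ₑ ^ q ≤
        (∫⁻ x : ℝ, ‖E1 a x t‖ₑ ^ 2) ^ (1 / 2 : ℝ) * (∫⁻ x : ℝ, ‖E1 a x t‖ₑ ^ Q) ^ (1 / 2 : ℝ) := by
      simp only [h2]
      exact ENNReal.lintegral_mul_norm_pow_le ((hm t).pow_const 2).aemeasurable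
        ((hm t).pow_const Q).aemeasurable (by norm_num) (by norm_num) (by norm_num)
    calc (∫⁻ x : ℝ, ‖E1 a x t‖ₑ ^ q) ^ (2 : ℝ)
        ≤ ((ENNReal.ofReal (nn a)) ^ (1 / 2 : ℝ) *
            (∫⁻ x : ℝ, ‖E1 a x t‖ₑ ^ Q) ^ (1 / 2 : ℝ)) ^ (2 : ℝ) := by
          gcongr
          refine h3.trans ?_
          gcongr
          exact E1_planchN ha t
      _ = ENNReal.ofReal (nn a) * ∫⁻ x : ℝ, ‖E1 a x t‖ₑ ^ Q := by
          rw [ENNReal.mul_rpow_of_nonneg _ _ (by norm_num), ← ENNReal.rpow_mul,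
            ← ENNReal.rpow_mul]
          norm_num
  calc ∫⁻ t : ℝ, (∫⁻ x : ℝ, ‖E1 a x t‖ₑ ^ q) ^ (2 : ℝ)
      ≤ ∫⁻ t : ℝ, ENNReal.ofReal (nn a) * ∫⁻ x : ℝ, ‖E1 a x t‖ₑ ^ Q := lintegral_mono h1
    _ = ENNReal.ofReal (nn a) * ∫⁻ t : ℝ, ∫⁻ x : ℝ, ‖E1 a x t‖ₑ ^ Q := by
        rw [lintegral_const_mul' _ _ ENNReal.ofReal_ne_top]
    _ = ENNReal.ofReal (nn a) * ∫⁻ p : ℝ × ℝ, ‖E1 a p.1 p.2‖ₑ ^ Q := by
        rw [Measure.volume_eq_prod, lintegral_prod_symm _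
          ((E1_meas ha).enorm.pow_const Q).aemeasurable]
    _ ≤ ENNReal.ofReal (nn a) * ENNReal.ofReal (C * nn a ^ (2 * (q - 1) - 3)) := by
        gcongr
        refine le_trans (le_of_eq ?_) (hC H a ha)
        apply lintegral_congr
        intro p
        rw [← ofReal_norm, ENNReal.ofReal_rpow_of_nonneg (norm_nonneg _) (by rw [hQ]; linarith)]
        congr 1
        rw [← Real.rpow_natCast, ← Real.rpow_mul (norm_nonneg _)]
        congr 1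
        rw [hQ]
        push_cast
        ring
    _ = _ := by
        rw [← ENNReal.ofReal_mul (nn_nonneg a)]
        congr 1
        rcases (nn_nonneg a).eq_or_lt with h | h
        · rw [← h, Real.zero_rpow (by linarith : (2 * q - 4 : ℝ) ≠ 0)]
          ring
        · rw [show 2 * q - 4 = 1 + (2 * (q - 1) - 3) by ring, Real.rpow_add h, Real.rpow_one]
          ring

/-- the extension operator on the plane -/
noncomputable def X (f : ℝ × ℝ → ℂ) (p : (ℝ × ℝ) × ℝ) : ℂ :=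
  ∫ z : ℝ × ℝ, ch (z.1 * p.1.1 + z.2 * p.1.2 + (z.1 ^ 2 + z.2 ^ 2) * p.2) * f z

lemma ph_cont (p : (ℝ × ℝ) × ℝ) : Continuous fun z : ℝ × ℝ =>
    ch (z.1 * p.1.1 + z.2 * p.1.2 + (z.1 ^ 2 + z.2 ^ 2) * p.2) :=
  ch_cont.comp (by fun_prop)

lemma X_integrable (f : ℝ × ℝ → ℂ) (hf : Integrable f) (p : (ℝ × ℝ) × ℝ) :
    Integrable fun z : ℝ × ℝ =>
      ch (z.1 * p.1.1 + z.2 * p.1.2 + (z.1 ^ 2 + z.2 ^ 2) * p.2) * f z := by
  refine hf.norm.mono' ((ph_cont p).aestronglyMeasurable.mul hf.1) (ae_of_all _ fun z => ?_)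
  rw [norm_mul, ch_norm, one_mul]

lemma X_meas (f : ℝ × ℝ → ℂ) (hf : Measurable f) : Measurable (X f) := by
  have h1 : StronglyMeasurable (fun q : ((ℝ × ℝ) × ℝ) × (ℝ × ℝ) =>
      ch (q.2.1 * q.1.1.1 + q.2.2 * q.1.1.2 + (q.2.1 ^ 2 + q.2.2 ^ 2) * q.1.2) * f q.2) := by
    apply Measurable.stronglyMeasurable
    have h2 : Continuous fun q : ((ℝ × ℝ) × ℝ) × (ℝ × ℝ) =>
        ch (q.2.1 * q.1.1.1 + q.2.2 * q.1.1.2 + (q.2.1 ^ 2 + q.2.2 ^ 2) * q.1.2) :=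
      ch_cont.comp (by fun_prop)
    exact h2.measurable.mul (hf.comp measurable_snd)
  exact (h1.integral_prod_right' (ν := volume)).measurable

lemma X_sup (f : ℝ × ℝ → ℂ) (p : (ℝ × ℝ) × ℝ) : ‖X f p‖ₑ ≤ ∫⁻ z, ‖f z‖ₑ := by
  unfold X
  refine (enorm_integral_le_lintegral_enorm _).trans (le_of_eq ?_)
  apply lintegral_congr
  intro z
  rw [enorm_mul, ch_enorm, one_mul]

section

variable {H : Type} [NormedAddCommGroup H] [InnerProductSpace ℂ H] [CompleteSpace H]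

/-- bilinear functions of two functions of one variable -/
noncomputable def tf (M : H →L[ℂ] H →L[ℂ] ℂ) (a b : ℝ → H) (z : ℝ × ℝ) : ℂ :=
  M (tr a z.1) (tr b z.2)

lemma tf_meas (M : H →L[ℂ] H →L[ℂ] ℂ) {a b : ℝ → H} (ha : Adm a) (hb : Adm b) :
    Measurable (tf M a b) := by
  have h1 : StronglyMeasurable fun z : ℝ × ℝ => tr a z.1 := (tr_meas ha).comp_measurable measurable_fst
  have h2 : StronglyMeasurable fun z : ℝ × ℝ => tr b z.2 := (tr_meas hb).comp_measurable measurable_snd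
  have hc : Continuous fun p : H × H => M p.1 p.2 := by fun_prop
  exact (hc.comp_stronglyMeasurable (h1.prodMk h2)).measurable

lemma M_le (M : H →L[ℂ] H →L[ℂ] ℂ) (hM : ‖M‖ ≤ 1) (u v : H) : ‖M u v‖ ≤ ‖u‖ * ‖v‖ := by
  refine (M.le_opNorm₂ u v).trans ?_
  calc ‖M‖ * ‖u‖ * ‖v‖ ≤ 1 * ‖u‖ * ‖v‖ := by gcongr
    _ = _ := by ring

lemma tf_le (M : H →L[ℂ] H →L[ℂ] ℂ) (hM : ‖M‖ ≤ 1) (a b : ℝ → H) (z : ℝ × ℝ) :
    ‖tf M a b z‖ ≤ ‖tr a z.1‖ * ‖tr b z.2‖ := M_le M hM _ _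

lemma phi_meas {a : ℝ → H} (ha : Adm a) (x t : ℝ) :
    StronglyMeasurable fun u : ℝ => ch (u * x + u ^ 2 * t) • tr a u := by
  apply StronglyMeasurable.smul
  · have h2 : Continuous fun u : ℝ => ch (u * x + u ^ 2 * t) := ch_cont.comp (by fun_prop)
    exact h2.stronglyMeasurable
  · exact tr_meas ha

lemma phi_int {a : ℝ → H} (ha : Adm a) (x t : ℝ) :
    Integrable fun u : ℝ => ch (u * x + u ^ 2 * t) • tr a u := by
  refine (tr_int ha).norm.mono' (phi_meas ha x t).aestronglyMeasurable (ae_of_all _ fun u => ?_)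
  rw [norm_smul, ch_norm, one_mul]

lemma X_tf (M : H →L[ℂ] H →L[ℂ] ℂ) {a b : ℝ → H} (ha : Adm a) (hb : Adm b) (p : (ℝ × ℝ) × ℝ) :
    X (tf M a b) p = M (E1 a p.1.1 p.2) (E1 b p.1.2 p.2) := by
  rw [E1_eq, E1_eq, ← integral_prod_bilin M (phi_int ha _ _) (phi_int hb _ _)]
  unfold X
  rw [Measure.volume_eq_prod]
  apply integral_congr_ae
  refine ae_of_all _ fun z => ?_
  simp only
  unfold tf
  rw [map_smul, map_smul, ContinuousLinearMap.smul_apply, smul_smul, smul_eq_mul]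
  congr 1
  rw [← ch_add]
  congr 1
  ring

/-- the base bound -/
theorem baseN (q : ℝ) (hq : 3 < q) : ∃ C : ℝ, 0 ≤ C ∧ ∀ (H : Type) [NormedAddCommGroup H]
    [InnerProductSpace ℂ H] [CompleteSpace H] (M : H →L[ℂ] H →L[ℂ] ℂ) (a b : ℝ → H), ‖M‖ ≤ 1 →
    Adm a → Adm b →
    ∫⁻ p, ‖X (tf M a b) p‖ₑ ^ q ≤ ENNReal.ofReal (C * (nn a * nn b) ^ (q - 2)) := by
  obtain ⟨C, hC0, hC⟩ := mixN q hq
  refine ⟨C, hC0, ?_⟩
  intro H _ _ _ M a b hM ha hb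
  have hma : Measurable fun p : ℝ × ℝ => ‖E1 a p.1 p.2‖ₑ ^ q := (E1_meas ha).enorm.pow_const q
  have hmb : Measurable fun p : ℝ × ℝ => ‖E1 b p.1 p.2‖ₑ ^ q := (E1_meas hb).enorm.pow_const q
  have hA : Measurable fun t : ℝ => ∫⁻ x : ℝ, ‖E1 a x t‖ₑ ^ q := hma.lintegral_prod_left'
  have hB : Measurable fun t : ℝ => ∫⁻ x : ℝ, ‖E1 b x t‖ₑ ^ q := hmb.lintegral_prod_left'
  have hprod : Measurable fun p : (ℝ × ℝ) × ℝ =>
      ‖E1 a p.1.1 p.2‖ₑ ^ q * ‖E1 b p.1.2 p.2‖ₑ ^ q :=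
    (hma.comp (by fun_prop : Measurable fun p : (ℝ × ℝ) × ℝ => ((p.1.1, p.2) : ℝ × ℝ))).mul
      (hmb.comp (by fun_prop : Measurable fun p : (ℝ × ℝ) × ℝ => ((p.1.2, p.2) : ℝ × ℝ)))
  calc ∫⁻ p, ‖X (tf M a b) p‖ₑ ^ q
      ≤ ∫⁻ p : (ℝ × ℝ) × ℝ, ‖E1 a p.1.1 p.2‖ₑ ^ q * ‖E1 b p.1.2 p.2‖ₑ ^ q := by
        apply lintegral_mono
        intro p
        simp only
        rw [X_tf M ha hb, ← ENNReal.mul_rpow_of_nonneg _ _ (by linarith)]
        apply ENNReal.rpow_le_rpow _ (by linarith)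
        rw [← ofReal_norm, ← ofReal_norm, ← ofReal_norm, ← ENNReal.ofReal_mul (norm_nonneg _)]
        exact ENNReal.ofReal_le_ofReal (M_le M hM _ _)
    _ = ∫⁻ t : ℝ, ∫⁻ x : ℝ × ℝ, ‖E1 a x.1 t‖ₑ ^ q * ‖E1 b x.2 t‖ₑ ^ q := by
        rw [Measure.volume_eq_prod, lintegral_prod_symm _ hprod.aemeasurable]
    _ = ∫⁻ t : ℝ, (∫⁻ x : ℝ, ‖E1 a x t‖ₑ ^ q) * ∫⁻ x : ℝ, ‖E1 b x t‖ₑ ^ q := by
        apply lintegral_congr
        intro t
        rw [Measure.volume_eq_prod, lintegral_prod_mul (f := fun x => ‖E1 a x t‖ₑ ^ q)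
          (g := fun x => ‖E1 b x t‖ₑ ^ q)]
        · exact ((E1t_meas ha t).enorm.pow_const q).aemeasurable
        · exact ((E1t_meas hb t).enorm.pow_const q).aemeasurable
    _ ≤ (∫⁻ t : ℝ, (∫⁻ x : ℝ, ‖E1 a x t‖ₑ ^ q) ^ (2 : ℝ)) ^ (1 / 2 : ℝ) *
          (∫⁻ t : ℝ, (∫⁻ x : ℝ, ‖E1 b x t‖ₑ ^ q) ^ (2 : ℝ)) ^ (1 / 2 : ℝ) := by
        have h := ENNReal.lintegral_mul_le_Lp_mul_Lq volume Real.HolderConjugate.two_two
          hA.aemeasurable hB.aemeasurable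
        exact h
    _ ≤ ENNReal.ofReal (C * nn a ^ (2 * q - 4)) ^ (1 / 2 : ℝ) *
          ENNReal.ofReal (C * nn b ^ (2 * q - 4)) ^ (1 / 2 : ℝ) := by
        gcongr
        · exact hC H a ha
        · exact hC H b hb
    _ = _ := by
        have h1 := Real.rpow_nonneg (nn_nonneg a) (2 * q - 4)
        have h2 := Real.rpow_nonneg (nn_nonneg b) (2 * q - 4)
        rw [ENNReal.ofReal_rpow_of_nonneg (by positivity) (by norm_num),
          ENNReal.ofReal_rpow_of_nonneg (by positivity) (by norm_num),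
          ← ENNReal.ofReal_mul (by positivity)]
        congr 1
        rw [Real.mul_rpow hC0 h1, Real.mul_rpow hC0 h2, ← Real.rpow_mul (nn_nonneg a),
          ← Real.rpow_mul (nn_nonneg b), Real.mul_rpow (nn_nonneg a) (nn_nonneg b),
          show (2 * q - 4) * (1 / 2) = q - 2 by ring]
        have h3 : C ^ (1 / 2 : ℝ) * C ^ (1 / 2 : ℝ) = C := by
          rw [← Real.rpow_add_of_nonneg hC0 (by norm_num) (by norm_num)]
          norm_num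
        calc _ = (C ^ (1 / 2 : ℝ) * C ^ (1 / 2 : ℝ)) * (nn a ^ (q - 2) * nn b ^ (q - 2)) := by ring
          _ = _ := by rw [h3]

end

end Pool.Agent.Y295.NS
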