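import Mathlib
import Pool.Agent.Y295.NS.B
set_option autoImplicit false
set_option linter.unusedSectionVars false

/-! The `L^q` functional of the extension operator and windows in `α(x) + β(y)`. -/

namespace Pool.Agent.Y295.NS

open MeasureTheory Set Complex Filter Topology
open scoped ENNReal NNReal
open Pool.Agent.TH277.HT
open Pool.Agent.W354.LS (tri sinc_ft sinc_fourier_int tri_zero tri_nonneg tri_le_one tri_eq_zero)

/-- the `L^q` norm of the extension -/
noncomputable def LL (q : ℝ) (f : ℝ × ℝ → ℂ) : ℝ≥0∞ := (∫⁻ p, ‖X f p‖ₑ ^ q) ^ (1 / q)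

lemma X_add (f g : ℝ × ℝ → ℂ) (hf : Integrable f) (hg : Integrable g) (p : (ℝ × ℝ) × ℝ) :
    X (fun z => f z + g z) p = X f p + X g p := by
  unfold X
  rw [← integral_add (X_integrable f hf p) (X_integrable g hg p)]
  simp only [mul_add]

lemma X_smul (c : ℂ) (f : ℝ × ℝ → ℂ) (p : (ℝ × ℝ) × ℝ) : X (fun z => c * f z) p = c * X f p := by
  unfold X
  rw [← integral_const_mul]
  congr 1
  ext z
  ring

lemma X_congr {f g : ℝ × ℝ → ℂ} (h : f =ᵐ[volume] g) (p : (ℝ × ℝ) × ℝ) : X f p = X g p := by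
  unfold X
  apply integral_congr_ae
  filter_upwards [h] with z hz
  rw [hz]

lemma LL_congr (q : ℝ) {f g : ℝ × ℝ → ℂ} (h : f =ᵐ[volume] g) : LL q f = LL q g := by
  unfold LL
  simp only [X_congr h]

lemma LL_add (q : ℝ) (hq : 1 ≤ q) (f g : ℝ × ℝ → ℂ) (hf : Integrable f) (hg : Integrable g)
    (hfm : Measurable f) (hgm : Measurable g) : LL q (fun z => f z + g z) ≤ LL q f + LL q g := by
  unfold LL
  refine le_trans ?_ (ENNReal.lintegral_Lp_add_le (X_meas f hfm).enorm.aemeasurable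
    (X_meas g hgm).enorm.aemeasurable hq)
  apply ENNReal.rpow_le_rpow _ (by positivity)
  apply lintegral_mono
  intro p
  apply ENNReal.rpow_le_rpow _ (by linarith)
  rw [X_add f g hf hg p]
  exact enorm_add_le _ _

lemma LL_smul (q : ℝ) (hq : 1 ≤ q) (c : ℂ) (f : ℝ × ℝ → ℂ) (hfm : Measurable f) :
    LL q (fun z => c * f z) = ‖c‖ₑ * LL q f := by
  unfold LL
  have h0 : 0 ≤ q := by linarith
  have h : ∀ p, ‖X (fun z => c * f z) p‖ₑ ^ q = ‖c‖ₑ ^ q * ‖X f p‖ₑ ^ q := by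
    intro p
    rw [X_smul, enorm_mul, ENNReal.mul_rpow_of_nonneg _ _ h0]
  simp only [h]
  rw [lintegral_const_mul _ ((X_meas f hfm).enorm.pow_const q),
    ENNReal.mul_rpow_of_nonneg _ _ (by positivity), ← ENNReal.rpow_mul, mul_one_div_cancel (by linarith),
    ENNReal.rpow_one]

lemma LL_sum (q : ℝ) (hq : 1 ≤ q) {ι : Type*} (s : Finset ι) (f : ι → ℝ × ℝ → ℂ)
    (hf : ∀ i, Integrable (f i)) (hfm : ∀ i, Measurable (f i)) :
    LL q (fun z => ∑ i ∈ s, f i z) ≤ ∑ i ∈ s, LL q (f i) := by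
  classical
  induction s using Finset.induction_on with
  | empty =>
    simp only [Finset.sum_empty]
    have h : ∀ p, X (fun _ => (0 : ℂ)) p = 0 := by
      intro p
      unfold X
      simp
    unfold LL
    simp only [h, enorm_zero]
    rw [ENNReal.zero_rpow_of_pos (by linarith), lintegral_zero, ENNReal.zero_rpow_of_pos (by positivity)]
  | insert a s ha ih =>
    simp only [Finset.sum_insert ha]
    refine (LL_add q hq _ _ (hf a) ?_ (hfm a) ?_).trans (add_le_add le_rfl ih)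
    · exact integrable_finsetSum s fun i _ => hf i
    · exact Finset.measurable_sum s fun i _ => hfm i

/-- limits in `L^1` -/
lemma LL_lim (q : ℝ) (hq : 1 ≤ q) (f : ℝ × ℝ → ℂ) (g : ℕ → ℝ × ℝ → ℂ) (hf : Integrable f)
    (hg : ∀ n, Integrable (g n)) (hgm : ∀ n, Measurable (g n))
    (hl : Tendsto (fun n => ∫⁻ z, ‖g n z - f z‖ₑ) atTop (𝓝 0)) (C : ℝ≥0∞)
    (hC : ∀ n, LL q (g n) ≤ C) : LL q f ≤ C := by
  have hq0 : 0 < q := by linarith
  have hpt : ∀ p, Tendsto (fun n => ‖X (g n) p‖ₑ ^ q) atTop (𝓝 (‖X f p‖ₑ ^ q)) := by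
    intro p
    apply Tendsto.ennrpow_const
    apply Tendsto.enorm
    rw [tendsto_iff_edist_tendsto_0]
    refine tendsto_of_tendsto_of_tendsto_of_le_of_le tendsto_const_nhds hl (fun n => zero_le) (fun n => ?_)
    rw [edist_eq_enorm_sub]
    have e : X (g n) p - X f p = X (fun z => g n z - f z) p := by
      unfold X
      rw [← integral_sub (X_integrable _ (hg n) p) (X_integrable f hf p)]
      simp only [mul_sub]
    rw [e]
    exact X_sup _ _
  have h1 : ∫⁻ p, ‖X f p‖ₑ ^ q ≤ liminf (fun n => ∫⁻ p, ‖X (g n) p‖ₑ ^ q) atTop := by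
    calc ∫⁻ p, ‖X f p‖ₑ ^ q = ∫⁻ p, liminf (fun n => ‖X (g n) p‖ₑ ^ q) atTop :=
          lintegral_congr fun p => (hpt p).liminf_eq.symm
      _ ≤ _ := lintegral_liminf_le fun n => (X_meas (g n) (hgm n)).enorm.pow_const q
  have h2 : ∀ n, ∫⁻ p, ‖X (g n) p‖ₑ ^ q ≤ C ^ q := by
    intro n
    have h3 := ENNReal.rpow_le_rpow (hC n) hq0.le
    unfold LL at h3
    rw [← ENNReal.rpow_mul, one_div_mul_cancel hq0.ne', ENNReal.rpow_one] at h3
    exact h3
  have h4 : ∫⁻ p, ‖X f p‖ₑ ^ q ≤ C ^ q := by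
    refine h1.trans ?_
    have h5 : liminf (fun n => ∫⁻ p, ‖X (g n) p‖ₑ ^ q) atTop ≤ liminf (fun _ : ℕ => C ^ q) atTop :=
      liminf_le_liminf (Filter.Eventually.of_forall h2)
    exact h5.trans (le_of_eq (by simp))
  unfold LL
  calc _ ≤ (C ^ q) ^ (1 / q) := ENNReal.rpow_le_rpow h4 (by positivity)
    _ = C := by rw [← ENNReal.rpow_mul, mul_one_div_cancel hq0.ne', ENNReal.rpow_one]

/-- pointwise dominated limits -/
lemma LL_dom (q : ℝ) (hq : 1 ≤ q) (f F : ℝ × ℝ → ℂ) (g : ℕ → ℝ × ℝ → ℂ) (hF : Integrable F)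
    (hfm : Measurable f) (hgm : ∀ n, Measurable (g n)) (hfF : ∀ z, ‖f z‖ ≤ ‖F z‖)
    (hgF : ∀ n z, ‖g n z‖ ≤ ‖F z‖) (hl : ∀ z, Tendsto (fun n => g n z) atTop (𝓝 (f z))) (C : ℝ≥0∞)
    (hC : ∀ n, LL q (g n) ≤ C) : LL q f ≤ C := by
  have hf : Integrable f := hF.norm.mono' hfm.aestronglyMeasurable (ae_of_all _ hfF)
  have hg : ∀ n, Integrable (g n) := fun n =>
    hF.norm.mono' (hgm n).aestronglyMeasurable (ae_of_all _ (hgF n))
  refine LL_lim q hq f g hf hg hgm ?_ C hC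
  have h1 := tendsto_lintegral_of_dominated_convergence (μ := (volume : Measure (ℝ × ℝ)))
    (F := fun n z => ‖g n z - f z‖ₑ) (f := fun _ => 0) (fun z => 2 * ‖F z‖ₑ)
    (fun n => ((hgm n).sub hfm).enorm) (fun n => ae_of_all _ fun z => ?_) ?_ (ae_of_all _ fun z => ?_)
  · simpa using h1
  · simp only
    calc ‖g n z - f z‖ₑ ≤ ‖g n z‖ₑ + ‖f z‖ₑ := enorm_sub_le
      _ ≤ ‖F z‖ₑ + ‖F z‖ₑ := by
          gcongr
          · rw [← ofReal_norm, ← ofReal_norm]
            exact ENNReal.ofReal_le_ofReal (hgF n z)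
          · rw [← ofReal_norm, ← ofReal_norm]
            exact ENNReal.ofReal_le_ofReal (hfF z)
      _ = 2 * ‖F z‖ₑ := (two_mul _).symm
  · rw [lintegral_const_mul' _ _ (by norm_num)]
    exact ENNReal.mul_ne_top (by norm_num) hF.2.ne
  · have h2 : Tendsto (fun n => g n z - f z) atTop (𝓝 (f z - f z)) := (hl z).sub tendsto_const_nhds
    rw [sub_self] at h2
    have h3 := h2.enorm
    simpa using h3

lemma LL_pow (q : ℝ) (hq : 1 ≤ q) (f : ℝ × ℝ → ℂ) : LL q f ^ q = ∫⁻ p, ‖X f p‖ₑ ^ q := by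
  unfold LL
  rw [← ENNReal.rpow_mul, one_div_mul_cancel (by linarith), ENNReal.rpow_one]

/-- larger exponents through the supremum -/
lemma X_up (q q' : ℝ) (hq' : 0 ≤ q') (hqq : q' ≤ q) (f : ℝ × ℝ → ℂ) (hfm : Measurable f) :
    ∫⁻ p, ‖X f p‖ₑ ^ q ≤ (∫⁻ z, ‖f z‖ₑ) ^ (q - q') * ∫⁻ p, ‖X f p‖ₑ ^ q' := by
  rw [← lintegral_const_mul _ ((X_meas f hfm).enorm.pow_const q')]
  apply lintegral_mono
  intro p
  simp only
  have e : ‖X f p‖ₑ ^ q = ‖X f p‖ₑ ^ (q - q') * ‖X f p‖ₑ ^ q' := by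
    rw [← ENNReal.rpow_add_of_nonneg _ _ (by linarith) (by linarith)]
    congr 1
    ring
  rw [e]
  refine mul_le_mul' ?_ le_rfl
  exact ENNReal.rpow_le_rpow (X_sup f p) (by linarith)

/-- Jensen -/
lemma jensen {Y : Type*} [MeasurableSpace Y] (μ : Measure Y) (f G : Y → ℝ≥0∞) (hf : Measurable f)
    (hG : Measurable G) (q : ℝ) (hq : 1 ≤ q) :
    (∫⁻ x, f x * G x ∂μ) ^ q ≤ (∫⁻ x, f x ∂μ) ^ (q - 1) * ∫⁻ x, f x * G x ^ q ∂μ := by
  rcases eq_or_lt_of_le hq with h1 | h1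
  · subst h1
    simp
  have hpq : (Real.conjExponent q).HolderConjugate q :=
    (Real.HolderConjugate.conjExponent h1).symm
  have h2 := ENNReal.lintegral_mul_le_Lp_mul_Lq (μ.withDensity f) hpq
    (f := fun _ => 1) (g := G) aemeasurable_const hG.aemeasurable
  simp only [Pi.mul_apply, one_mul, ENNReal.one_rpow] at h2
  rw [lintegral_withDensity_eq_lintegral_mul _ hf hG,
    lintegral_withDensity_eq_lintegral_mul _ hf (hG.pow_const q),
    lintegral_withDensity_eq_lintegral_mul _ hf measurable_const] at h2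
  simp only [Pi.mul_apply, mul_one] at h2
  have hq0 : 0 < q := by linarith
  have h3 := ENNReal.rpow_le_rpow h2 hq0.le
  rw [ENNReal.mul_rpow_of_nonneg _ _ hq0.le, ← ENNReal.rpow_mul, ← ENNReal.rpow_mul] at h3
  have e1 : 1 / Real.conjExponent q * q = q - 1 := by
    unfold Real.conjExponent
    have : q - 1 ≠ 0 := by linarith
    field_simp
  have e2 : 1 / q * q = 1 := by field_simp
  rw [e1, e2, ENNReal.rpow_one] at h3
  exact h3

/-- Fejer kernel -/
noncomputable def fj (v : ℝ) : ℝ := Real.sinc (Real.pi * v) ^ 2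

lemma fj_cont : Continuous fj := by
  unfold fj
  have := Real.continuous_sinc
  fun_prop

lemma fj_nonneg (v : ℝ) : 0 ≤ fj v := by
  unfold fj
  positivity

lemma fj_integrable : Integrable fj := sinc_fourier_int

lemma fj_tri (x : ℝ) : ∫ w : ℝ, (fj w : ℂ) * ch (w * x) = (tri x : ℂ) := by
  rw [← sinc_ft x]
  apply integral_congr_ae
  refine ae_of_all _ fun w => ?_
  simp only
  rw [mul_comm]
  unfold fj ch
  congr 2
  push_cast
  ring

lemma fj_int : ∫ v, fj v = 1 := by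
  have h := fj_tri 0
  rw [tri_zero] at h
  have e : ∀ w : ℝ, (fj w : ℂ) * ch (w * 0) = ((fj w : ℝ) : ℂ) := by
    intro w
    unfold ch
    simp
  simp only [e] at h
  rw [integral_complex_ofReal] at h
  exact_mod_cast h

lemma fj_lint : ∫⁻ v, ENNReal.ofReal (fj v) = 1 := by
  rw [← ofReal_integral_eq_lintegral_ofReal fj_integrable (ae_of_all _ fj_nonneg), fj_int,
    ENNReal.ofReal_one]

section

variable {H : Type} [NormedAddCommGroup H] [InnerProductSpace ℂ H] [CompleteSpace H]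

/-- modulation -/
noncomputable def md (α : ℝ → ℝ) (w : ℝ) (a : ℝ → H) (u : ℝ) : H := ch (w * α u) • a u

lemma md_adm {α : ℝ → ℝ} (hα : Measurable α) (w : ℝ) {a : ℝ → H} (ha : Adm a) :
    Adm (md α w a) := by
  constructor
  · apply StronglyMeasurable.smul _ ha.meas
    exact (ch_cont.measurable.comp (hα.const_mul w)).stronglyMeasurable
  · intro u
    unfold md
    rw [norm_smul, ch_norm, one_mul]
    exact ha.bd u

lemma md_tr (α : ℝ → ℝ) (w : ℝ) (a : ℝ → H) (u : ℝ) : tr (md α w a) u = ch (w * α u) • tr a u := by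
  unfold tr
  by_cases h : u ∈ Icc (-1 : ℝ) 1
  · rw [indicator_of_mem h, indicator_of_mem h, md]
  · rw [indicator_of_notMem h, indicator_of_notMem h, smul_zero]

lemma md_nn (α : ℝ → ℝ) (w : ℝ) (a : ℝ → H) : nn (md α w a) = nn a := by
  unfold nn
  congr 1
  ext u
  rw [md_tr, norm_smul, ch_norm, one_mul]

lemma md_tf (M : H →L[ℂ] H →L[ℂ] ℂ) (α β : ℝ → ℝ) (w : ℝ) (a b : ℝ → H) (z : ℝ × ℝ) :
    tf M (md α w a) (md β w b) z = ch (w * (α z.1 + β z.2)) * tf M a b z := by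
  unfold tf
  rw [md_tr, md_tr, map_smul, map_smul, ContinuousLinearMap.smul_apply, smul_smul, smul_eq_mul, ← ch_add]
  congr 2
  ring

lemma tf_norm (M : H →L[ℂ] H →L[ℂ] ℂ) (hM : ‖M‖ ≤ 1) {a b : ℝ → H} (hb : Adm b) (z : ℝ × ℝ) :
    ‖tf M a b z‖ ≤ ‖tr a z.1‖ * (Icc (-1 : ℝ) 1).indicator (fun _ => (1 : ℝ)) z.2 := by
  refine (tf_le M hM a b z).trans ?_
  gcongr
  by_cases h : z.2 ∈ Icc (-1 : ℝ) 1
  · rw [indicator_of_mem h]
    exact tr_bd hb _
  · rw [indicator_of_notMem h, tr_zero b h, norm_zero]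

lemma tf_int (M : H →L[ℂ] H →L[ℂ] ℂ) (hM : ‖M‖ ≤ 1) {a b : ℝ → H} (ha : Adm a) (hb : Adm b) :
    Integrable (tf M a b) := by
  refine ((tr_int ha).norm.mul_prod (tr_int hb).norm).mono' (tf_meas M ha hb).aestronglyMeasurable
    (ae_of_all _ fun z => ?_)
  exact tf_le M hM a b z

/-- the window as a superposition -/
lemma X_win (M : H →L[ℂ] H →L[ℂ] ℂ) (hM : ‖M‖ ≤ 1) {a b : ℝ → H} (ha : Adm a) (hb : Adm b)
    {α β : ℝ → ℝ} (hα : Measurable α) (hβ : Measurable β) (p : (ℝ × ℝ) × ℝ) :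
    X (fun z => tf M a b z * (tri (α z.1 + β z.2) : ℂ)) p =
      ∫ w, (fj w : ℂ) * X (tf M (md α w a) (md β w b)) p := by
  unfold X
  have hI : Integrable (Function.uncurry fun (z : ℝ × ℝ) (w : ℝ) =>
      (ch (z.1 * p.1.1 + z.2 * p.1.2 + (z.1 ^ 2 + z.2 ^ 2) * p.2) * tf M a b z) *
        ((fj w : ℂ) * ch (w * (α z.1 + β z.2)))) := by
    refine Integrable.mono' ((tf_int M hM ha hb).norm.mul_prod fj_integrable) ?_
      (ae_of_all _ fun z => ?_)
    · apply Measurable.aestronglyMeasurable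
      have h1 : Measurable fun y : (ℝ × ℝ) × ℝ => ch (y.2 * (α y.1.1 + β y.1.2)) := by
        apply ch_cont.measurable.comp
        exact measurable_snd.mul ((hα.comp (measurable_fst.comp measurable_fst)).add
          (hβ.comp (measurable_snd.comp measurable_fst)))
      have h2 : Measurable fun y : (ℝ × ℝ) × ℝ => (fj y.2 : ℂ) :=
        Complex.measurable_ofReal.comp (fj_cont.measurable.comp measurable_snd)
      exact ((((ph_cont p).measurable.comp measurable_fst).mul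
        ((tf_meas M ha hb).comp measurable_fst)).mul (h2.mul h1))
    · rw [Function.uncurry, norm_mul, norm_mul, norm_mul, ch_norm, ch_norm, one_mul, mul_one,
        Complex.norm_real, Real.norm_eq_abs, abs_of_nonneg (fj_nonneg _)]
  have hs := integral_integral_swap hI
  have e1 : ∀ z : ℝ × ℝ, ch (z.1 * p.1.1 + z.2 * p.1.2 + (z.1 ^ 2 + z.2 ^ 2) * p.2) *
      (tf M a b z * (tri (α z.1 + β z.2) : ℂ)) =
      ∫ w : ℝ, (ch (z.1 * p.1.1 + z.2 * p.1.2 + (z.1 ^ 2 + z.2 ^ 2) * p.2) * tf M a b z) *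
        ((fj w : ℂ) * ch (w * (α z.1 + β z.2))) := by
    intro z
    rw [integral_const_mul, fj_tri]
    ring
  simp only [e1]
  rw [hs]
  apply integral_congr_ae
  refine ae_of_all _ fun w => ?_
  simp only
  rw [← integral_const_mul]
  apply integral_congr_ae
  refine ae_of_all _ fun z => ?_
  simp only
  rw [md_tf]
  ring

lemma md_X_meas (M : H →L[ℂ] H →L[ℂ] ℂ) {a b : ℝ → H} (ha : Adm a) (hb : Adm b)
    {α β : ℝ → ℝ} (hα : Measurable α) (hβ : Measurable β) :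
    Measurable fun y : ((ℝ × ℝ) × ℝ) × ℝ => X (tf M (md α y.2 a) (md β y.2 b)) y.1 := by
  unfold X
  simp only [md_tf]
  have h1 : StronglyMeasurable (fun q : (((ℝ × ℝ) × ℝ) × ℝ) × (ℝ × ℝ) =>
      ch (q.2.1 * q.1.1.1.1 + q.2.2 * q.1.1.1.2 + (q.2.1 ^ 2 + q.2.2 ^ 2) * q.1.1.2) *
        (ch (q.1.2 * (α q.2.1 + β q.2.2)) * tf M a b q.2)) := by
    apply Measurable.stronglyMeasurable
    have h2 : Continuous fun q : (((ℝ × ℝ) × ℝ) × ℝ) × (ℝ × ℝ) =>
        ch (q.2.1 * q.1.1.1.1 + q.2.2 * q.1.1.1.2 + (q.2.1 ^ 2 + q.2.2 ^ 2) * q.1.1.2) :=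
      ch_cont.comp (by fun_prop)
    have h3 : Measurable fun q : (((ℝ × ℝ) × ℝ) × ℝ) × (ℝ × ℝ) => ch (q.1.2 * (α q.2.1 + β q.2.2)) := by
      apply ch_cont.measurable.comp
      exact (measurable_snd.comp measurable_fst).mul
        ((hα.comp (measurable_fst.comp measurable_snd)).add
          (hβ.comp (measurable_snd.comp measurable_snd)))
    exact h2.measurable.mul (h3.mul ((tf_meas M ha hb).comp measurable_snd))
  exact (h1.integral_prod_right' (ν := volume)).measurable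

/-- the window bound -/
theorem winN (q : ℝ) (hq : 3 < q) : ∃ C : ℝ, 0 ≤ C ∧ ∀ (H : Type) [NormedAddCommGroup H]
    [InnerProductSpace ℂ H] [CompleteSpace H] (M : H →L[ℂ] H →L[ℂ] ℂ) (a b : ℝ → H) (α β : ℝ → ℝ),
    ‖M‖ ≤ 1 → Adm a → Adm b → Measurable α → Measurable β →
    ∫⁻ p, ‖X (fun z => tf M a b z * (tri (α z.1 + β z.2) : ℂ)) p‖ₑ ^ q ≤
      ENNReal.ofReal (C * (nn a * nn b) ^ (q - 2)) := by
  obtain ⟨C, hC0, hC⟩ := baseN q hq
  refine ⟨C, hC0, ?_⟩
  intro H _ _ _ M a b α β hM ha hb hα hβ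
  have hm := md_X_meas M ha hb hα hβ
  have hfm : Measurable fun w : ℝ => ENNReal.ofReal (fj w) := fj_cont.measurable.ennreal_ofReal
  have hm2 : Measurable fun y : ((ℝ × ℝ) × ℝ) × ℝ =>
      ENNReal.ofReal (fj y.2) * ‖X (tf M (md α y.2 a) (md β y.2 b)) y.1‖ₑ ^ q :=
    (hfm.comp measurable_snd).mul (hm.enorm.pow_const q)
  calc ∫⁻ p, ‖X (fun z => tf M a b z * (tri (α z.1 + β z.2) : ℂ)) p‖ₑ ^ q
      ≤ ∫⁻ p, ∫⁻ w, ENNReal.ofReal (fj w) * ‖X (tf M (md α w a) (md β w b)) p‖ₑ ^ q := by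
        apply lintegral_mono
        intro p
        simp only
        rw [X_win M hM ha hb hα hβ p]
        have h1 := jensen volume (fun w => ENNReal.ofReal (fj w))
          (fun w => ‖X (tf M (md α w a) (md β w b)) p‖ₑ) hfm
          (hm.comp (by fun_prop : Measurable fun w : ℝ => (p, w))).enorm q (by linarith)
        rw [fj_lint, ENNReal.one_rpow, one_mul] at h1
        refine le_trans ?_ h1
        apply ENNReal.rpow_le_rpow _ (by linarith)
        refine (enorm_integral_le_lintegral_enorm _).trans (le_of_eq ?_)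
        apply lintegral_congr
        intro w
        rw [enorm_mul]
        congr 1
        rw [← ofReal_norm, Complex.norm_real, Real.norm_eq_abs, abs_of_nonneg (fj_nonneg _)]
    _ = ∫⁻ w, ∫⁻ p, ENNReal.ofReal (fj w) * ‖X (tf M (md α w a) (md β w b)) p‖ₑ ^ q :=
        lintegral_lintegral_swap hm2.aemeasurable
    _ ≤ ∫⁻ w, ENNReal.ofReal (fj w) * ENNReal.ofReal (C * (nn a * nn b) ^ (q - 2)) := by
        apply lintegral_mono
        intro w
        simp only
        rw [lintegral_const_mul' _ _ ENNReal.ofReal_ne_top]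
        gcongr
        have h2 := hC H M (md α w a) (md β w b) hM (md_adm hα w ha) (md_adm hβ w hb)
        rwa [md_nn, md_nn] at h2
    _ = _ := by
        rw [lintegral_mul_const _ hfm, fj_lint, one_mul]

end

end Pool.Agent.Y295.NS
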