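import Mathlib
import Pool.Agent.Y295.NS.C
set_option autoImplicit false
set_option linter.unusedSectionVars false

/-! Sharp cutoffs `u(y) ≤ R(x)` at a single scale. -/

namespace Pool.Agent.Y295.NS

open MeasureTheory Set Complex Filter Topology
open scoped ENNReal NNReal
open Pool.Agent.TH277.HT
open Pool.Agent.W354.LS (tri sinc_ft sinc_fourier_int tri_zero tri_nonneg tri_le_one tri_eq_zero)

/-- ramp functions -/
noncomputable def ramp (n : ℕ) (v : ℝ) : ℝ := max 0 (min 1 (v * 2 ^ n + 1))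

lemma ramp_succ (n : ℕ) (v : ℝ) :
    ramp (n + 1) v = ramp n v - 1 / 2 * tri (v * 2 ^ (n + 1) + 1) := by
  unfold ramp tri
  set u := v * 2 ^ n with hu
  have e : v * 2 ^ (n + 1) = 2 * u := by rw [hu, pow_succ]; ring
  rw [e]
  rcases le_total 0 u with h | h
  · rw [min_eq_left (by linarith), min_eq_left (by linarith), abs_of_nonneg (by linarith),
      max_eq_left (by linarith : 1 - (2 * u + 1) ≤ 0)]
    norm_num
  · rw [min_eq_right (by linarith), min_eq_right (by linarith)]
    rcases le_total (-(1 / 2)) u with h2 | h2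
    · rw [abs_of_nonneg (by linarith), max_eq_right (by linarith), max_eq_right (by linarith),
        max_eq_right (by linarith)]
      ring
    · rw [abs_of_nonpos (by linarith), max_eq_left (by linarith : 2 * u + 1 ≤ 0)]
      rcases le_total (-1) u with h3 | h3
      · rw [max_eq_right (by linarith), max_eq_right (by linarith)]
        ring
      · rw [max_eq_left (by linarith), max_eq_left (by linarith)]
        ring

lemma ramp_zero (v : ℝ) (hv : v ≤ 1) : ramp 0 v = tri v + tri (v + -1) := by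
  unfold ramp tri
  rw [pow_zero, mul_one, abs_of_nonpos (by linarith : v + -1 ≤ 0)]
  rcases le_total 0 v with h | h
  · rw [min_eq_left (by linarith), max_eq_right zero_le_one, abs_of_nonneg h,
      max_eq_right (by linarith), max_eq_right (by linarith)]
    ring
  · rw [min_eq_right (by linarith), abs_of_nonpos h, max_eq_left (by linarith : 1 - -(v + -1) ≤ 0)]
    rcases le_total (-1) v with h1 | h1
    · rw [max_eq_right (by linarith), max_eq_right (by linarith)]
      ring
    · rw [max_eq_left (by linarith), max_eq_left (by linarith)]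
      ring

lemma ramp_sum (n : ℕ) (v : ℝ) (hv : v ≤ 1) :
    ramp n v = tri v + tri (v + -1) + ∑ k ∈ Finset.range n, (-(1 / 2)) * tri (v * 2 ^ (k + 1) + 1) := by
  induction n with
  | zero => rw [ramp_zero v hv, Finset.range_zero, Finset.sum_empty, add_zero]
  | succ n ih =>
    rw [ramp_succ, ih, Finset.sum_range_succ]
    ring

lemma ramp_cont (n : ℕ) : Continuous (ramp n) := by
  unfold ramp
  fun_prop

lemma ramp_mem (n : ℕ) (v : ℝ) : 0 ≤ ramp n v ∧ ramp n v ≤ 1 :=
  ⟨le_max_left _ _, max_le zero_le_one (min_le_left _ _)⟩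

lemma ramp_pos (n : ℕ) {v : ℝ} (hv : 0 ≤ v) : ramp n v = 1 := by
  unfold ramp
  have h : 0 ≤ v * 2 ^ n := by positivity
  rw [min_eq_left (by linarith), max_eq_right zero_le_one]

lemma ramp_lim {v : ℝ} (hv : v < 0) : Tendsto (fun n => ramp n v) atTop (𝓝 0) := by
  have h1 : Tendsto (fun n : ℕ => (2 : ℝ) ^ n) atTop atTop :=
    tendsto_pow_atTop_atTop_of_one_lt (by norm_num)
  have h2 : ∀ᶠ n : ℕ in atTop, 1 / (-v) ≤ (2 : ℝ) ^ n := h1.eventually_ge_atTop _
  apply tendsto_const_nhds.congr'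
  filter_upwards [h2] with n hn
  have h3 : 0 < -v := by linarith
  rw [div_le_iff₀ h3] at hn
  unfold ramp
  rw [min_eq_right (by nlinarith), max_eq_left (by nlinarith)]

lemma ind_lim (v : ℝ) : Tendsto (fun n => ramp n v) atTop (𝓝 (if 0 ≤ v then 1 else 0)) := by
  by_cases h : 0 ≤ v
  · rw [if_pos h]
    simp only [ramp_pos _ h]
    exact tendsto_const_nhds
  · rw [if_neg h]
    exact ramp_lim (not_le.1 h)

lemma tri_cont : Continuous tri := by
  unfold Pool.Agent.W354.LS.tri
  fun_prop

section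

variable {H : Type} [NormedAddCommGroup H] [InnerProductSpace ℂ H] [CompleteSpace H]

lemma win_meas (M : H →L[ℂ] H →L[ℂ] ℂ) {a b : ℝ → H} (ha : Adm a) (hb : Adm b)
    {α β : ℝ → ℝ} (hα : Measurable α) (hβ : Measurable β) :
    Measurable fun z : ℝ × ℝ => tf M a b z * (tri (α z.1 + β z.2) : ℂ) :=
  (tf_meas M ha hb).mul (Complex.measurable_ofReal.comp
    (tri_cont.measurable.comp ((hα.comp measurable_fst).add (hβ.comp measurable_snd))))

lemma win_le (M : H →L[ℂ] H →L[ℂ] ℂ) (a b : ℝ → H) (α β : ℝ → ℝ) (z : ℝ × ℝ) :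
    ‖tf M a b z * (tri (α z.1 + β z.2) : ℂ)‖ ≤ ‖tf M a b z‖ := by
  rw [norm_mul, Complex.norm_real, Real.norm_eq_abs, abs_of_nonneg (tri_nonneg _)]
  exact mul_le_of_le_one_right (norm_nonneg _) (tri_le_one _)

lemma win_int (M : H →L[ℂ] H →L[ℂ] ℂ) (hM : ‖M‖ ≤ 1) {a b : ℝ → H} (ha : Adm a) (hb : Adm b)
    {α β : ℝ → ℝ} (hα : Measurable α) (hβ : Measurable β) :
    Integrable fun z : ℝ × ℝ => tf M a b z * (tri (α z.1 + β z.2) : ℂ) :=
  (tf_int M hM ha hb).norm.mono' (win_meas M ha hb hα hβ).aestronglyMeasurable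
    (ae_of_all _ fun z => win_le M a b α β z)

/-- the `L^1` norm of a narrow window -/
lemma win_L1 (M : H →L[ℂ] H →L[ℂ] ℂ) (hM : ‖M‖ ≤ 1) {a b : ℝ → H} (ha : Adm a) (hb : Adm b)
    {α β : ℝ → ℝ} (hα : Measurable α) (hβ : Measurable β) (s : ℝ)
    (hs : ∀ x, tr a x ≠ 0 → volume {y | y ∈ Icc (-1 : ℝ) 1 ∧ |α x + β y| < 1} ≤ ENNReal.ofReal s) :
    ∫⁻ z, ‖tf M a b z * (tri (α z.1 + β z.2) : ℂ)‖ₑ ≤ ENNReal.ofReal (nn a * s) := by
  have hm : Measurable fun z : ℝ × ℝ => ‖tf M a b z * (tri (α z.1 + β z.2) : ℂ)‖ₑ :=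
    (win_meas M ha hb hα hβ).enorm
  rw [Measure.volume_eq_prod, lintegral_prod _ hm.aemeasurable]
  calc ∫⁻ x, ∫⁻ y, ‖tf M a b (x, y) * (tri (α (x, y).1 + β (x, y).2) : ℂ)‖ₑ
      ≤ ∫⁻ x, ‖tr a x‖ₑ * ENNReal.ofReal s := by
        apply lintegral_mono
        intro x
        simp only
        by_cases hx : tr a x = 0
        · have h0 : ∀ y, tf M a b (x, y) = 0 := by
            intro y
            unfold tf
            simp only [hx, map_zero, ContinuousLinearMap.zero_apply]
          simp only [h0, zero_mul, enorm_zero, lintegral_zero]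
          exact zero_le
        · set T : Set ℝ := {y | y ∈ Icc (-1 : ℝ) 1 ∧ |α x + β y| < 1} with hT
          have hTm : MeasurableSet T := by
            apply MeasurableSet.inter measurableSet_Icc
            exact measurableSet_lt ((measurable_const.add hβ).abs) measurable_const
          calc ∫⁻ y, ‖tf M a b (x, y) * (tri (α x + β y) : ℂ)‖ₑ
              ≤ ∫⁻ y, T.indicator (fun _ => ‖tr a x‖ₑ) y := by
                apply lintegral_mono
                intro y
                simp only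
                by_cases hy : y ∈ T
                · rw [indicator_of_mem hy, ← ofReal_norm, ← ofReal_norm]
                  apply ENNReal.ofReal_le_ofReal
                  refine (win_le M a b α β (x, y)).trans ((tf_le M hM a b (x, y)).trans ?_)
                  exact mul_le_of_le_one_right (norm_nonneg _) (tr_bd hb _)
                · rw [indicator_of_notMem hy]
                  have h0 : tf M a b (x, y) * (tri (α x + β y) : ℂ) = 0 := by
                    by_cases h1 : y ∈ Icc (-1 : ℝ) 1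
                    · have h2 : 1 ≤ |α x + β y| := by
                        by_contra hc
                        exact hy ⟨h1, not_le.1 hc⟩
                      rw [tri_eq_zero h2]
                      simp
                    · unfold tf
                      simp only [tr_zero b h1, map_zero, zero_mul]
                  rw [h0, enorm_zero]
            _ = ‖tr a x‖ₑ * volume T := by
                rw [lintegral_indicator hTm, setLIntegral_const]
            _ ≤ _ := by
                gcongr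
                exact hs x hx
    _ = _ := by
        rw [lintegral_mul_const _ (tr_meas ha).enorm, nn_eq ha, ← ENNReal.ofReal_mul (nn_nonneg a)]

/-- a narrow window -/
theorem narrow (q q' : ℝ) (hq' : 3 < q') (hqq : q' < q) : ∃ C : ℝ, 0 ≤ C ∧ ∀ (H : Type)
    [NormedAddCommGroup H] [InnerProductSpace ℂ H] [CompleteSpace H] (M : H →L[ℂ] H →L[ℂ] ℂ)
    (a b : ℝ → H) (α β : ℝ → ℝ) (N h : ℝ) (k : ℕ),
    ‖M‖ ≤ 1 → Adm a → Adm b → Measurable α → Measurable β → 0 ≤ h → nn b ≤ h → nn a * h ≤ N →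
    (∀ x, tr a x ≠ 0 → volume {y | y ∈ Icc (-1 : ℝ) 1 ∧ |α x + β y| < 1} ≤
      ENNReal.ofReal (h * (1 / 2) ^ k)) →
    LL q (fun z => tf M a b z * (tri (α z.1 + β z.2) : ℂ)) ≤
      ENNReal.ofReal (C * N ^ ((q - 2) / q) * ((1 / 2) ^ ((q - q') / q)) ^ k) := by
  obtain ⟨C, hC0, hC⟩ := winN q' hq'
  refine ⟨C ^ (1 / q), by positivity, ?_⟩
  intro H _ _ _ M a b α β N h k hM ha hb hα hβ hh hbh hN hs
  have hq0 : 0 < q := by linarith
  have ha0 := nn_nonneg a
  have hb0 := nn_nonneg b
  have hN0 : 0 ≤ N := le_trans (by positivity) hN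
  have h1 := hC H M a b α β hM ha hb hα hβ
  have h2 := win_L1 M hM ha hb hα hβ _ hs
  have h3 := X_up q q' (by linarith) hqq.le _ (win_meas M ha hb hα hβ)
  have hk0 : (0 : ℝ) ≤ (1 / 2) ^ k := by positivity
  have h4 : ∫⁻ p, ‖X (fun z => tf M a b z * (tri (α z.1 + β z.2) : ℂ)) p‖ₑ ^ q ≤
      ENNReal.ofReal ((N * (1 / 2) ^ k) ^ (q - q') * (C * N ^ (q' - 2))) := by
    refine h3.trans ?_
    rw [ENNReal.ofReal_mul (by positivity), ← ENNReal.ofReal_rpow_of_nonneg (by positivity) (by linarith)]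
    refine mul_le_mul' ?_ ?_
    · apply ENNReal.rpow_le_rpow _ (by linarith)
      refine h2.trans (ENNReal.ofReal_le_ofReal ?_)
      rw [← mul_assoc]
      gcongr
    · refine h1.trans (ENNReal.ofReal_le_ofReal ?_)
      gcongr
      · linarith
      · calc nn a * nn b ≤ nn a * h := by gcongr
          _ ≤ N := hN
  unfold LL
  refine (ENNReal.rpow_le_rpow h4 (by positivity)).trans (le_of_eq ?_)
  rw [ENNReal.ofReal_rpow_of_nonneg (by positivity) (by positivity)]
  congr 1
  have e1 : (N * (1 / 2) ^ k) ^ (q - q') * (C * N ^ (q' - 2)) =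
      C * (N ^ (q - 2) * ((1 / 2) ^ k) ^ (q - q')) := by
    rw [Real.mul_rpow hN0 hk0]
    rcases hN0.eq_or_lt with h0 | h0
    · rw [← h0, Real.zero_rpow (by linarith : q - q' ≠ 0), Real.zero_rpow (by linarith : q - 2 ≠ 0)]
      ring
    · rw [show q - 2 = (q - q') + (q' - 2) by ring, Real.rpow_add h0]
      ring
  rw [e1, Real.mul_rpow hC0 (by positivity), Real.mul_rpow (by positivity) (by positivity),
    ← Real.rpow_mul hN0, ← Real.rpow_mul hk0, ← Real.rpow_natCast ((1 / 2) ^ ((q - q') / q)) k,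
    ← Real.rpow_mul (by norm_num), ← Real.rpow_natCast (1 / 2) k, ← Real.rpow_mul (by norm_num)]
  rw [show (q - 2) * (1 / q) = (q - 2) / q by ring,
    show (k : ℝ) * ((q - q') * (1 / q)) = (q - q') / q * k by ring]
  ring

/-- a wide window -/
theorem wide (q : ℝ) (hq : 3 < q) : ∃ C : ℝ, 0 ≤ C ∧ ∀ (H : Type)
    [NormedAddCommGroup H] [InnerProductSpace ℂ H] [CompleteSpace H] (M : H →L[ℂ] H →L[ℂ] ℂ)
    (a b : ℝ → H) (α β : ℝ → ℝ) (N h : ℝ),
    ‖M‖ ≤ 1 → Adm a → Adm b → Measurable α → Measurable β → 0 ≤ h → nn b ≤ h → nn a * h ≤ N →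
    LL q (fun z => tf M a b z * (tri (α z.1 + β z.2) : ℂ)) ≤
      ENNReal.ofReal (C * N ^ ((q - 2) / q)) := by
  obtain ⟨C, hC0, hC⟩ := winN q hq
  refine ⟨C ^ (1 / q), by positivity, ?_⟩
  intro H _ _ _ M a b α β N h hM ha hb hα hβ hh hbh hN
  have hq0 : 0 < q := by linarith
  have ha0 := nn_nonneg a
  have hb0 := nn_nonneg b
  have hN0 : 0 ≤ N := le_trans (by positivity) hN
  have h1 := hC H M a b α β hM ha hb hα hβ
  have h4 : ∫⁻ p, ‖X (fun z => tf M a b z * (tri (α z.1 + β z.2) : ℂ)) p‖ₑ ^ q ≤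
      ENNReal.ofReal (C * N ^ (q - 2)) := by
    refine h1.trans (ENNReal.ofReal_le_ofReal ?_)
    gcongr
    · linarith
    · calc nn a * nn b ≤ nn a * h := by gcongr
        _ ≤ N := hN
  unfold LL
  refine (ENNReal.rpow_le_rpow h4 (by positivity)).trans (le_of_eq ?_)
  rw [ENNReal.ofReal_rpow_of_nonneg (by positivity) (by positivity)]
  congr 1
  rw [Real.mul_rpow hC0 (by positivity), ← Real.rpow_mul hN0,
    show (q - 2) * (1 / q) = (q - 2) / q by ring]

end

end Pool.Agent.Y295.NS
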