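import Mathlib
import Pool.Agent.Y295.NS.D
set_option autoImplicit false
set_option linter.unusedSectionVars false

/-! Sharp cutoffs `u(y) ≤ R(x)` at a single scale. -/

namespace Pool.Agent.Y295.NS

open MeasureTheory Set Complex Filter Topology
open scoped ENNReal NNReal
open Pool.Agent.TH277.HT
open Pool.Agent.W354.LS (tri sinc_ft sinc_fourier_int tri_zero tri_nonneg tri_le_one tri_eq_zero)

lemma LL_half (q : ℝ) (hq : 1 ≤ q) (f : ℝ × ℝ → ℂ) (hf : Measurable f) :
    LL q (fun z => (-(1 / 2) : ℂ) * f z) ≤ LL q f := by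
  rw [LL_smul q hq _ f hf]
  have c1 : ‖(-(1 / 2) : ℂ)‖ₑ ≤ 1 := by
    rw [← ofReal_norm]
    apply ENNReal.ofReal_le_one.2
    rw [norm_neg]
    norm_num
  calc ‖(-(1 / 2) : ℂ)‖ₑ * LL q f ≤ 1 * LL q f := by gcongr
    _ = LL q f := one_mul _

attribute [local irreducible] LL X

/-- Single scale: the cutoff `u(y) ≤ R(x)` where `R ≤ 2 h`. -/
theorem single (q : ℝ) (hq : 3 < q) : ∃ C : ℝ, 0 ≤ C ∧ ∀ (H : Type)
    [NormedAddCommGroup H] [InnerProductSpace ℂ H] [CompleteSpace H] (M : H →L[ℂ] H →L[ℂ] ℂ)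
    (a b : ℝ → H) (R u : ℝ → ℝ) (N h : ℝ),
    ‖M‖ ≤ 1 → Adm a → Adm b → Measurable R → Measurable u → 0 < h → nn b ≤ 8 * h →
    nn a * (8 * h) ≤ N → (∀ x, tr a x ≠ 0 → R x ≤ 2 * h) → (∀ y, 0 ≤ u y) →
    (∀ x, tr a x ≠ 0 → ∀ η : ℝ, 0 ≤ η →
      volume {y | y ∈ Icc (-1 : ℝ) 1 ∧ |u y - R x| ≤ η} ≤ ENNReal.ofReal (4 * η)) →
    LL q (fun z => tf M a b z * ((if u z.2 ≤ R z.1 then (1 : ℝ) else 0 : ℝ) : ℂ)) ≤
      ENNReal.ofReal (C * N ^ ((q - 2) / q)) := by
  set q' := (3 + q) / 2 with hq'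
  have hq'1 : 3 < q' := by rw [hq']; linarith
  have hq'2 : q' < q := by rw [hq']; linarith
  have hq0 : 0 < q := by linarith
  obtain ⟨C1, hC10, hC1⟩ := narrow q q' hq'1 hq'2
  obtain ⟨C2, hC20, hC2⟩ := wide q hq
  set ρ : ℝ := (1 / 2) ^ ((q - q') / q) with hρ
  have hρ0 : 0 < ρ := by positivity
  have hρ1 : ρ < 1 := by
    rw [hρ]
    apply Real.rpow_lt_one (by norm_num) (by norm_num)
    apply div_pos (by linarith) hq0
  refine ⟨2 * C2 + C1 * (1 - ρ)⁻¹, by
    have : 0 < 1 - ρ := by linarith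
    positivity, ?_⟩
  intro H _ _ _ M a b R u N h hM ha hb hR hu hh hbh hN hRh hu0 hs
  have ha0 := nn_nonneg a
  have hN0 : 0 ≤ N := le_trans (by positivity) hN
  set α : ℝ → ℝ := fun x => R x / (2 * h) with hα
  set β : ℝ → ℝ := fun y => -(u y / (2 * h)) with hβ
  have hαm : Measurable α := hR.div_const _
  have hβm : Measurable β := (hu.div_const _).neg
  have hF := tf_int M hM ha hb
  have hFm := tf_meas M ha hb
  have hvm : Measurable fun z : ℝ × ℝ => α z.1 + β z.2 :=
    (hαm.comp measurable_fst).add (hβm.comp measurable_snd)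
  -- limits
  refine LL_dom q (by linarith) _ (tf M a b) (fun n z => tf M a b z * (ramp n (α z.1 + β z.2) : ℂ)) hF
    ?_ ?_ ?_ ?_ ?_ _ ?_
  · apply hFm.mul
    apply Complex.measurable_ofReal.comp
    exact Measurable.ite (measurableSet_le (hu.comp measurable_snd) (hR.comp measurable_fst))
      measurable_const measurable_const
  · intro n
    exact hFm.mul (Complex.measurable_ofReal.comp ((ramp_cont n).measurable.comp hvm))
  · intro z
    rw [norm_mul, Complex.norm_real, Real.norm_eq_abs]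
    refine mul_le_of_le_one_right (norm_nonneg _) ?_
    split_ifs <;> simp
  · intro n z
    rw [norm_mul, Complex.norm_real, Real.norm_eq_abs, abs_of_nonneg (ramp_mem n _).1]
    exact mul_le_of_le_one_right (norm_nonneg _) (ramp_mem n _).2
  · intro z
    apply Tendsto.const_mul
    have h1 := ind_lim (α z.1 + β z.2)
    have h2 : (0 ≤ α z.1 + β z.2) ↔ u z.2 ≤ R z.1 := by
      rw [hα, hβ]
      simp only
      rw [← sub_eq_add_neg, sub_nonneg, div_le_div_iff_of_pos_right (by positivity)]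
    simp only [h2] at h1
    exact (Complex.continuous_ofReal.tendsto _).comp h1
  -- the bounds of the ramps
  intro n
  have e : LL q (fun z => tf M a b z * (ramp n (α z.1 + β z.2) : ℂ)) =
      LL q (fun z => (tf M a b z * (tri (α z.1 + β z.2) : ℂ) +
        tf M a b z * (tri ((fun x => α x + -1) z.1 + β z.2) : ℂ)) +
        ∑ k ∈ Finset.range n, (-(1 / 2) : ℂ) *
          (tf M a b z * (tri ((fun x => α x * 2 ^ (k + 1) + 1) z.1 + (fun y => β y * 2 ^ (k + 1)) z.2) : ℂ))) := by
    congr 1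
    ext z
    by_cases hz : tr a z.1 = 0
    · have h0 : tf M a b z = 0 := by
        unfold tf
        rw [hz, map_zero, ContinuousLinearMap.zero_apply]
      rw [h0]
      simp
    · have hv : α z.1 + β z.2 ≤ 1 := by
        have h1 := hRh z.1 hz
        have h2 := hu0 z.2
        rw [hα, hβ]
        simp only
        rw [← sub_eq_add_neg, ← sub_div, div_le_one (by positivity)]
        linarith
      rw [ramp_sum n _ hv]
      simp only
      push_cast
      rw [mul_add, mul_add, Finset.mul_sum]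
      congr 1
      · congr 2
        congr 2
        ring
      · apply Finset.sum_congr rfl
        intro k _
        have e2 : (α z.1 + β z.2) * 2 ^ (k + 1) + 1 = α z.1 * 2 ^ (k + 1) + 1 + β z.2 * 2 ^ (k + 1) := by
          ring
        rw [e2]
        ring
  rw [e]
  have hα1 : Measurable fun x => α x + -1 := hαm.add_const _
  have hα2 : ∀ k : ℕ, Measurable fun x => α x * 2 ^ (k + 1) + 1 := fun k =>
    (hαm.mul_const _).add_const _
  have hβ2 : ∀ k : ℕ, Measurable fun y => β y * 2 ^ (k + 1) := fun k => hβm.mul_const _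
  have b1 := hC2 H M a b α β N (8 * h) hM ha hb hαm hβm (by positivity) hbh hN
  have b2 := hC2 H M a b (fun x => α x + -1) β N (8 * h) hM ha hb hα1 hβm (by positivity) hbh hN
  have b3 : ∀ k : ℕ, LL q (fun z => (-(1 / 2) : ℂ) *
      (tf M a b z * (tri ((fun x => α x * 2 ^ (k + 1) + 1) z.1 + (fun y => β y * 2 ^ (k + 1)) z.2) : ℂ))) ≤
      ENNReal.ofReal (C1 * N ^ ((q - 2) / q) * ρ ^ k) := by
    intro k
    refine (LL_half q (by linarith) _ (win_meas M ha hb (hα2 k) (hβ2 k))).trans ?_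
    refine hC1 H M a b _ _ N (8 * h) k hM ha hb (hα2 k) (hβ2 k) (by positivity) hbh hN ?_
    intro x hx
    refine (measure_mono ?_).trans ((hs x hx (2 * h * (1 / 2) ^ k) (by positivity)).trans
      (ENNReal.ofReal_le_ofReal (by linarith)))
    rintro y ⟨hy1, hy2⟩
    refine ⟨hy1, ?_⟩
    have e3 : α x * 2 ^ (k + 1) + 1 + β y * 2 ^ (k + 1) =
        (R x - u y) * (2 ^ (k + 1) / (2 * h)) + 1 := by
      rw [hα, hβ]
      simp only
      ring
    rw [e3, abs_lt] at hy2
    have hP : (0 : ℝ) < 2 ^ (k + 1) / (2 * h) := by positivity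
    have e4 : 2 * h * (1 / 2) ^ k * (2 ^ (k + 1) / (2 * h)) = 2 := by
      rw [one_div, inv_pow, pow_succ]
      field_simp
    rw [abs_le]
    constructor
    · by_contra hc
      push Not at hc
      have : 2 * h * (1 / 2) ^ k * (2 ^ (k + 1) / (2 * h)) < (R x - u y) * (2 ^ (k + 1) / (2 * h)) := by
        apply mul_lt_mul_of_pos_right _ hP
        linarith
      rw [e4] at this
      linarith [hy2.2]
    · by_contra hc
      push Not at hc
      have : (R x - u y) * (2 ^ (k + 1) / (2 * h)) < -(2 * h * (1 / 2) ^ k) * (2 ^ (k + 1) / (2 * h)) := by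
        apply mul_lt_mul_of_pos_right _ hP
        linarith
      rw [neg_mul, e4] at this
      linarith [hy2.1]
  have i0 := win_int M hM ha hb hαm hβm
  have i1 := win_int M hM ha hb hα1 hβm
  have i2 := fun k => (win_int M hM ha hb (hα2 k) (hβ2 k)).const_mul (-(1 / 2) : ℂ)
  have m0 := win_meas M ha hb hαm hβm
  have m1 := win_meas M ha hb hα1 hβm
  have m2 := fun k => (win_meas M ha hb (hα2 k) (hβ2 k)).const_mul (-(1 / 2) : ℂ)
  refine (LL_add q (by linarith) _ _ (i0.add i1) (integrable_finsetSum _ fun k _ => i2 k) (m0.add m1)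
    (Finset.measurable_sum _ fun k _ => m2 k)).trans ?_
  refine (add_le_add (LL_add q (by linarith) _ _ i0 i1 m0 m1)
    (LL_sum q (by linarith) _ _ i2 m2)).trans ?_
  refine (add_le_add (add_le_add b1 b2) (Finset.sum_le_sum fun k _ => b3 k)).trans ?_
  have hNp : 0 ≤ N ^ ((q - 2) / q) := by positivity
  rw [← ENNReal.ofReal_add (by positivity) (by positivity),
    ← ENNReal.ofReal_sum_of_nonneg (fun k _ => by positivity),
    ← ENNReal.ofReal_add (by positivity) (Finset.sum_nonneg fun k _ => by positivity)]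
  apply ENNReal.ofReal_le_ofReal
  rw [← Finset.mul_sum]
  have h5 : ∑ k ∈ Finset.range n, ρ ^ k ≤ (1 - ρ)⁻¹ := by
    rw [← tsum_geometric_of_lt_one hρ0.le hρ1]
    exact (summable_geometric_of_lt_one hρ0.le hρ1).sum_le_tsum _ (fun k _ => by positivity)
  calc _ ≤ C2 * N ^ ((q - 2) / q) + C2 * N ^ ((q - 2) / q) + C1 * N ^ ((q - 2) / q) * (1 - ρ)⁻¹ := by
        gcongr
    _ = _ := by ring

end Pool.Agent.Y295.NS
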