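import Mathlib
set_option autoImplicit false
set_option linter.unusedSectionVars false

/-! The rank of `y` with respect to a measurable function `τ`. -/

namespace Pool.Agent.Y295.NS

open MeasureTheory Set Filter Topology
open scoped ENNReal NNReal

/-- Lebesgue measure on `[-1,1]` -/
noncomputable def mu : Measure ℝ := volume.restrict (Icc (-1 : ℝ) 1)

lemma mu_univ : mu univ = 2 := by
  unfold mu
  rw [Measure.restrict_apply_univ, Real.volume_Icc]
  norm_num

instance : IsFiniteMeasure mu := ⟨by rw [mu_univ]; norm_num⟩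

lemma mu_le (s : Set ℝ) : mu s ≤ volume s := by
  unfold mu
  exact Measure.restrict_le_self s

lemma mu_toReal_le (s : Set ℝ) : (mu s).toReal ≤ 2 := by
  have h : mu s ≤ 2 := by
    rw [← mu_univ]
    exact measure_mono (subset_univ s)
  calc (mu s).toReal ≤ (2 : ℝ≥0∞).toReal := ENNReal.toReal_mono (by norm_num) h
    _ = 2 := by norm_num

lemma mu_real_mono {s t : Set ℝ} (h : s ⊆ t) : (mu s).toReal ≤ (mu t).toReal :=
  ENNReal.toReal_mono (measure_ne_top _ _) (measure_mono h)

/-- a finite measure on the line gives mass at most `t - s` to the slab of its own distribution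
function -/
lemma slab (ν : Measure ℝ) [IsFiniteMeasure ν] (s t : ℝ) :
    ν {v | s ≤ (ν (Iio v)).toReal ∧ (ν (Iic v)).toReal ≤ t} ≤ ENNReal.ofReal (t - s) := by
  have m1 : Measurable fun v : ℝ => (ν (Iio v)).toReal := by
    apply Monotone.measurable
    intro v w h
    exact ENNReal.toReal_mono (measure_ne_top _ _) (measure_mono (Iio_subset_Iio h))
  have m2 : Measurable fun v : ℝ => (ν (Iic v)).toReal := by
    apply Monotone.measurable
    intro v w h
    exact ENNReal.toReal_mono (measure_ne_top _ _) (measure_mono (Iic_subset_Iic.2 h))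
  have hV : MeasurableSet {v | s ≤ (ν (Iio v)).toReal ∧ (ν (Iic v)).toReal ≤ t} :=
    (measurableSet_le measurable_const m1).inter (measurableSet_le m2 measurable_const)
  rw [hV.measure_eq_iSup_isCompact_of_ne_top (measure_ne_top _ _)]
  refine iSup₂_le fun K hK => iSup_le fun hKc => ?_
  rcases K.eq_empty_or_nonempty with h | h
  · rw [h, measure_empty]
    exact zero_le
  · have h1 := hK (hKc.sInf_mem h)
    have h2 := hK (hKc.sSup_mem h)
    have h3 : K ⊆ Iic (sSup K) \ Iio (sInf K) := by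
      intro v hv
      exact ⟨le_csSup hKc.bddAbove hv, not_lt.2 (csInf_le hKc.bddBelow hv)⟩
    have h4 : Iio (sInf K) ⊆ Iic (sSup K) := by
      intro v hv
      have h5 : sInf K ≤ sSup K := csInf_le_csSup h hKc.bddBelow hKc.bddAbove
      exact (le_of_lt hv).trans h5
    refine (measure_mono h3).trans ?_
    rw [measure_diff h4 measurableSet_Iio.nullMeasurableSet (measure_ne_top _ _)]
    rw [← ENNReal.ofReal_toReal (measure_ne_top ν (Iic (sSup K))),
      ← ENNReal.ofReal_toReal (measure_ne_top ν (Iio (sInf K))),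
      ← ENNReal.ofReal_sub _ ENNReal.toReal_nonneg]
    apply ENNReal.ofReal_le_ofReal
    have h6 := h1.1
    have h7 := h2.2
    linarith

/-- mass below the level of `y` -/
noncomputable def rl (τ : ℝ → ℝ) (y : ℝ) : ℝ := (mu {w | τ w < τ y}).toReal

/-- mass up to the level of `y` -/
noncomputable def ru (τ : ℝ → ℝ) (y : ℝ) : ℝ := (mu {w | τ w ≤ τ y}).toReal

/-- the rank -/
noncomputable def rk (τ : ℝ → ℝ) (y : ℝ) : ℝ := (rl τ y + ru τ y) / 2

lemma rl_nonneg (τ : ℝ → ℝ) (y : ℝ) : 0 ≤ rl τ y := ENNReal.toReal_nonneg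

lemma rl_le_ru (τ : ℝ → ℝ) (y : ℝ) : rl τ y ≤ ru τ y :=
  mu_real_mono fun w (h : τ w < τ y) => show τ w ≤ τ y from le_of_lt h

lemma rk_nonneg (τ : ℝ → ℝ) (y : ℝ) : 0 ≤ rk τ y := by
  have h1 := rl_nonneg τ y
  have h2 := rl_le_ru τ y
  unfold rk
  linarith

lemma rl_meas {τ : ℝ → ℝ} (hτ : Measurable τ) : Measurable (rl τ) := by
  have m1 : Measurable fun v : ℝ => (mu {w | τ w < v}).toReal := by
    apply Monotone.measurable
    intro v w h
    exact mu_real_mono fun x hx => lt_of_lt_of_le hx h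
  exact m1.comp hτ

lemma ru_meas {τ : ℝ → ℝ} (hτ : Measurable τ) : Measurable (ru τ) := by
  have m1 : Measurable fun v : ℝ => (mu {w | τ w ≤ v}).toReal := by
    apply Monotone.measurable
    intro v w h
    exact mu_real_mono fun x hx => le_trans hx h
  exact m1.comp hτ

lemma rk_meas {τ : ℝ → ℝ} (hτ : Measurable τ) : Measurable (rk τ) :=
  ((rl_meas hτ).add (ru_meas hτ)).div_const 2

lemma slab_mu {τ : ℝ → ℝ} (hτ : Measurable τ) (s t : ℝ) :
    mu {y | s ≤ rl τ y ∧ ru τ y ≤ t} ≤ ENNReal.ofReal (t - s) := by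
  have h := slab (mu.map τ) s t
  have e1 : ∀ v, (mu.map τ) (Iio v) = mu {w | τ w < v} := fun v =>
    Measure.map_apply hτ measurableSet_Iio
  have e2 : ∀ v, (mu.map τ) (Iic v) = mu {w | τ w ≤ v} := fun v =>
    Measure.map_apply hτ measurableSet_Iic
  simp only [e1, e2] at h
  refine le_trans ?_ h
  have m1 : Measurable fun v : ℝ => (mu {w | τ w < v}).toReal := by
    apply Monotone.measurable
    intro v w h
    exact mu_real_mono fun x hx => lt_of_lt_of_le hx h
  have m2 : Measurable fun v : ℝ => (mu {w | τ w ≤ v}).toReal := by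
    apply Monotone.measurable
    intro v w h
    exact mu_real_mono fun x hx => le_trans hx h
  have hV : MeasurableSet {v | s ≤ (mu {w | τ w < v}).toReal ∧ (mu {w | τ w ≤ v}).toReal ≤ t} :=
    (measurableSet_le measurable_const m1).inter (measurableSet_le m2 measurable_const)
  rw [Measure.map_apply hτ hV]
  exact le_of_eq rfl

section

variable {τ : ℝ → ℝ} {T : Set ℝ} (hT : ∀ v w, τ v ≤ τ w → w ∈ T → v ∈ T)

include hT

lemma rk_mem {y : ℝ} (hy : y ∈ T) : ru τ y ≤ (mu T).toReal :=
  mu_real_mono fun w hw => hT w y hw hy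

lemma rk_not {y : ℝ} (hy : y ∉ T) : (mu T).toReal ≤ rl τ y := by
  apply mu_real_mono
  intro w hw
  by_contra hc
  exact hy (hT y w (not_lt.1 hc) hw)

lemma rk_mem' {y : ℝ} (hy : y ∈ T) : rk τ y ≤ (mu T).toReal := by
  have h1 := rk_mem hT hy
  have h2 := rl_le_ru τ y
  unfold rk
  linarith

lemma rk_conc (hτ : Measurable τ) (η : ℝ) (hη : 0 ≤ η) :
    mu {y | |rk τ y - (mu T).toReal| ≤ η} ≤ ENNReal.ofReal (4 * η) := by
  set R := (mu T).toReal with hR
  have h1 : {y | |rk τ y - R| ≤ η} ⊆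
      {y | R - 2 * η ≤ rl τ y ∧ ru τ y ≤ R} ∪ {y | R ≤ rl τ y ∧ ru τ y ≤ R + 2 * η} := by
    intro y hy
    have hy1 : |rk τ y - R| ≤ η := hy
    rw [abs_le] at hy1
    have e : rk τ y = (rl τ y + ru τ y) / 2 := rfl
    by_cases h : y ∈ T
    · left
      have h2 : ru τ y ≤ R := rk_mem hT h
      refine ⟨?_, h2⟩
      linarith [hy1.1]
    · right
      have h2 : R ≤ rl τ y := rk_not hT h
      refine ⟨h2, ?_⟩
      linarith [hy1.2]
  refine (measure_mono h1).trans ((measure_union_le _ _).trans ?_)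
  refine (add_le_add (slab_mu hτ _ _) (slab_mu hτ _ _)).trans ?_
  rw [← ENNReal.ofReal_add (by linarith) (by linarith)]
  exact ENNReal.ofReal_le_ofReal (by linarith)

end

lemma rk_low {τ : ℝ → ℝ} (hτ : Measurable τ) (s : ℝ) :
    mu {y | rk τ y ≤ s} ≤ ENNReal.ofReal (2 * s) := by
  have h1 : {y | rk τ y ≤ s} ⊆ {y | 0 ≤ rl τ y ∧ ru τ y ≤ 2 * s} := by
    intro y hy
    have hy1 : (rl τ y + ru τ y) / 2 ≤ s := hy
    have h2 := rl_nonneg τ y
    exact ⟨h2, by linarith⟩
  refine (measure_mono h1).trans ((slab_mu hτ _ _).trans ?_)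
  exact ENNReal.ofReal_le_ofReal (by linarith)

end Pool.Agent.Y295.NS
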