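import Mathlib
import Pool.Agent.Y295.NS.D2
import Pool.Agent.Y295.NS.E
set_option autoImplicit false
set_option linter.unusedSectionVars false

/-! The bound for sets with nested sections. -/

namespace Pool.Agent.Y295.NS

open MeasureTheory Set Complex Filter Topology
open scoped ENNReal NNReal
open Pool.Agent.TH277.HT

attribute [local irreducible] LL X

/-- measure of the section in `[-1,1]` -/
noncomputable def RR (S : Set (ℝ × ℝ)) (x : ℝ) : ℝ := (mu {y | (x, y) ∈ S}).toReal

lemma RR_meas {S : Set (ℝ × ℝ)} (hS : MeasurableSet S) : Measurable (RR S) := by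
  have h := measurable_measure_prodMk_left (ν := mu) hS
  exact h.ennreal_toReal

lemma RR_le (S : Set (ℝ × ℝ)) (x : ℝ) : RR S x ≤ 2 := mu_toReal_le _

lemma RR_nonneg (S : Set (ℝ × ℝ)) (x : ℝ) : 0 ≤ RR S x := ENNReal.toReal_nonneg

lemma mu_apply {s : Set ℝ} (hs : MeasurableSet s) : mu s = volume (Icc (-1 : ℝ) 1 ∩ s) := by
  unfold mu
  rw [Measure.restrict_apply hs, inter_comm]

lemma conc_vol {τ : ℝ → ℝ} (hτ : Measurable τ) (S : Set (ℝ × ℝ))
    (hnest : ∀ x v w, τ v ≤ τ w → (x, w) ∈ S → (x, v) ∈ S) (x η : ℝ) (hη : 0 ≤ η) :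
    volume (Icc (-1 : ℝ) 1 ∩ {y | |rk τ y - RR S x| ≤ η}) ≤ ENNReal.ofReal (4 * η) := by
  have hm : MeasurableSet {y | |rk τ y - RR S x| ≤ η} :=
    measurableSet_le (((rk_meas hτ).sub_const (RR S x)).abs) measurable_const
  rw [← mu_apply hm]
  exact rk_conc (T := {y | (x, y) ∈ S}) (fun v w hvw hw => hnest x v w hvw hw) hτ η hη

section

variable {H : Type} [NormedAddCommGroup H] [InnerProductSpace ℂ H] [CompleteSpace H]

/-- restriction to a set -/
noncomputable def rs (A : Set ℝ) (a : ℝ → H) : ℝ → H := A.indicator a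

lemma rs_adm {A : Set ℝ} (hA : MeasurableSet A) {a : ℝ → H} (ha : Adm a) : Adm (rs A a) := by
  constructor
  · exact ha.meas.indicator hA
  · intro u
    unfold rs
    by_cases h : u ∈ A
    · rw [indicator_of_mem h]
      exact ha.bd u
    · rw [indicator_of_notMem h, norm_zero]
      exact zero_le_one

lemma rs_tr (A : Set ℝ) (a : ℝ → H) (u : ℝ) : tr (rs A a) u = A.indicator (tr a) u := by
  unfold tr rs
  rw [indicator_indicator, indicator_indicator, inter_comm]

lemma rs_tf (M : H →L[ℂ] H →L[ℂ] ℂ) (A B : Set ℝ) (a b : ℝ → H) (z : ℝ × ℝ) :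
    tf M (rs A a) (rs B b) z = (A ×ˢ B).indicator (tf M a b) z := by
  unfold tf
  rw [rs_tr, rs_tr]
  by_cases h1 : z.1 ∈ A
  · by_cases h2 : z.2 ∈ B
    · rw [indicator_of_mem h1, indicator_of_mem h2, indicator_of_mem (show z ∈ A ×ˢ B from ⟨h1, h2⟩)]
    · rw [indicator_of_notMem h2, indicator_of_notMem (fun h : z ∈ A ×ˢ B => h2 h.2), map_zero]
  · rw [indicator_of_notMem h1, indicator_of_notMem (fun h : z ∈ A ×ˢ B => h1 h.1), map_zero]
    simp

lemma rs_nn {A : Set ℝ} (hA : MeasurableSet A) {a : ℝ → H} (ha : Adm a) :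
    ENNReal.ofReal (nn (rs A a)) ≤ mu A := by
  rw [← nn_eq (rs_adm hA ha)]
  unfold mu
  rw [Measure.restrict_apply hA, ← lintegral_indicator_one (hA.inter measurableSet_Icc)]
  apply lintegral_mono
  intro u
  simp only
  by_cases h : u ∈ A ∩ Icc (-1 : ℝ) 1
  · rw [indicator_of_mem h]
    exact tr_e (rs_adm hA ha) u
  · rw [indicator_of_notMem h]
    have h1 : tr (rs A a) u = 0 := by
      unfold tr rs
      rw [indicator_indicator]
      apply indicator_of_notMem
      rw [inter_comm]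
      exact h
    rw [h1, enorm_zero]

end

/-- The bound for sets with nested sections. -/
theorem setBound (q : ℝ) (hq : 3 < q) (θ : ℝ) (h0 : 0 < θ) (h1 : θ < (q - 2) / q) :
    ∃ C : ℝ, 0 ≤ C ∧ ∀ (H : Type) [NormedAddCommGroup H] [InnerProductSpace ℂ H] [CompleteSpace H]
    (M : H →L[ℂ] H →L[ℂ] ℂ) (a b : ℝ → H) (τ : ℝ → ℝ) (S : Set (ℝ × ℝ)) (s : ℝ),
    ‖M‖ ≤ 1 → Adm a → Adm b → Measurable τ → MeasurableSet S →
    (∀ x v w, τ v ≤ τ w → (x, w) ∈ S → (x, v) ∈ S) → 0 ≤ s → volume S ≤ ENNReal.ofReal s →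
    LL q (fun z => tf M a b z * ((S.indicator (fun _ => (1 : ℝ)) z : ℝ) : ℂ)) ≤
      ENNReal.ofReal (C * s ^ θ) := by
  obtain ⟨C, hC0, hC⟩ := single q hq
  set ε : ℝ := (q - 2) / q - θ with hε
  have hε0 : 0 < ε := by rw [hε]; linarith
  set ρ : ℝ := (1 / 2) ^ ε with hρ
  have hρ0 : 0 < ρ := by positivity
  have hρ1 : ρ < 1 := Real.rpow_lt_one (by norm_num) (by norm_num) hε0
  refine ⟨C * 8 ^ θ * 16 ^ ε * (1 - ρ)⁻¹, by
    have : 0 < 1 - ρ := by linarith
    positivity, ?_⟩
  intro H _ _ _ M a b τ S s hM ha hb hτ hS hnest hs hvol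
  have hF := tf_int M hM ha hb
  have hFm := tf_meas M ha hb
  have hsec : ∀ x : ℝ, ∀ v w : ℝ, τ v ≤ τ w → w ∈ {y | (x, y) ∈ S} → v ∈ {y | (x, y) ∈ S} :=
    fun x v w hvw hw => hnest x v w hvw hw
  have hRm := RR_meas hS
  have hum := rk_meas hτ
  -- replacing the indicator
  have hae : (fun z => tf M a b z * ((S.indicator (fun _ => (1 : ℝ)) z : ℝ) : ℂ)) =ᵐ[volume]
      fun z => tf M a b z * ((if rk τ z.2 ≤ RR S z.1 then (1 : ℝ) else 0 : ℝ) : ℂ) *
        ((if 0 < RR S z.1 then (1 : ℝ) else 0 : ℝ) : ℂ) := by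
    have hbad : MeasurableSet {z : ℝ × ℝ | z.2 ∈ Icc (-1 : ℝ) 1 ∧
        (rk τ z.2 = RR S z.1 ∨ (z ∈ S ∧ RR S z.1 = 0))} := by
      apply (measurable_snd measurableSet_Icc).inter
      apply MeasurableSet.union
      · exact measurableSet_eq_fun (hum.comp measurable_snd) (hRm.comp measurable_fst)
      · exact hS.inter (measurableSet_eq_fun (hRm.comp measurable_fst) measurable_const)
    have hnull : volume {z : ℝ × ℝ | z.2 ∈ Icc (-1 : ℝ) 1 ∧
        (rk τ z.2 = RR S z.1 ∨ (z ∈ S ∧ RR S z.1 = 0))} = 0 := by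
      rw [Measure.volume_eq_prod, Measure.measure_prod_null hbad]
      refine ae_of_all _ fun x => ?_
      simp only [Pi.zero_apply]
      have e1 : Prod.mk x ⁻¹' {z : ℝ × ℝ | z.2 ∈ Icc (-1 : ℝ) 1 ∧
          (rk τ z.2 = RR S z.1 ∨ (z ∈ S ∧ RR S z.1 = 0))} ⊆
          (Icc (-1 : ℝ) 1 ∩ {y | |rk τ y - RR S x| ≤ 0}) ∪
            (Icc (-1 : ℝ) 1 ∩ {y | (x, y) ∈ S ∧ RR S x = 0}) := by
        rintro y ⟨hy1, hy2⟩
        rcases hy2 with hy2 | hy2
        · left
          refine ⟨hy1, ?_⟩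
          show |rk τ y - RR S x| ≤ 0
          have : rk τ y = RR S x := hy2
          rw [this, sub_self, abs_zero]
        · right
          exact ⟨hy1, hy2⟩
      apply measure_mono_null e1
      rw [measure_union_null_iff]
      constructor
      · have h2 := conc_vol hτ S hnest x 0 le_rfl
        rw [mul_zero, ENNReal.ofReal_zero] at h2
        exact le_antisymm h2 zero_le
      · by_cases hR0 : RR S x = 0
        · have h2 : mu {y | (x, y) ∈ S} = 0 := by
            unfold RR at hR0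
            rcases (ENNReal.toReal_eq_zero_iff _).1 hR0 with h | h
            · exact h
            · exact absurd h (measure_ne_top _ _)
          have hsm : MeasurableSet {y | (x, y) ∈ S} := measurable_prodMk_left hS
          rw [mu_apply hsm] at h2
          refine measure_mono_null ?_ h2
          rintro y ⟨hy1, hy2⟩
          exact ⟨hy1, hy2.1⟩
        · have : (Icc (-1 : ℝ) 1 ∩ {y | (x, y) ∈ S ∧ RR S x = 0}) = ∅ := by
            ext y
            simp [hR0]
          rw [this, measure_empty]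
    have h2 : ∀ᵐ z : ℝ × ℝ, z ∉ {z : ℝ × ℝ | z.2 ∈ Icc (-1 : ℝ) 1 ∧
        (rk τ z.2 = RR S z.1 ∨ (z ∈ S ∧ RR S z.1 = 0))} := by
      rw [ae_iff]
      simp only [not_not]
      exact hnull
    filter_upwards [h2] with z hz
    by_cases hz1 : z.2 ∈ Icc (-1 : ℝ) 1
    · have hz2 : rk τ z.2 ≠ RR S z.1 := fun h => hz ⟨hz1, Or.inl h⟩
      have hz3 : z ∈ S → RR S z.1 ≠ 0 := fun h h' => hz ⟨hz1, Or.inr ⟨h, h'⟩⟩
      by_cases hzS : z ∈ S
      · have h3 : rk τ z.2 ≤ RR S z.1 := rk_mem' (hsec z.1) (y := z.2) hzS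
        have h4 : 0 < RR S z.1 := lt_of_le_of_ne (RR_nonneg S _) (Ne.symm (hz3 hzS))
        rw [indicator_of_mem hzS, if_pos h3, if_pos h4]
        simp
      · have h3 : RR S z.1 ≤ rl τ z.2 := rk_not (hsec z.1) (y := z.2) hzS
        have h4 := rl_le_ru τ z.2
        have h5 : RR S z.1 ≤ rk τ z.2 := by
          unfold rk
          linarith
        have h6 : ¬ rk τ z.2 ≤ RR S z.1 := fun h => hz2 (le_antisymm h h5)
        rw [indicator_of_notMem hzS, if_neg h6]
        simp
    · have h3 : tf M a b z = 0 := by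
        unfold tf
        rw [tr_zero b hz1, map_zero]
      rw [h3]
      simp
  rw [LL_congr q hae]
  -- the pieces
  set A : ℕ → Set ℝ := fun m => {x | (1 / 2 : ℝ) ^ m < RR S x ∧ RR S x ≤ 2 * (1 / 2) ^ m} with hA
  set B : ℕ → Set ℝ := fun m => {y | rk τ y ≤ 4 * (1 / 2) ^ m} with hB
  have hAm : ∀ m, MeasurableSet (A m) := fun m =>
    (measurableSet_lt measurable_const hRm).inter (measurableSet_le hRm measurable_const)
  have hBm : ∀ m, MeasurableSet (B m) := fun m => measurableSet_le hum measurable_const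
  set P : ℕ → ℝ × ℝ → ℂ := fun m z => tf M (rs (A m) a) (rs (B m) b) z *
    ((if rk τ z.2 ≤ RR S z.1 then (1 : ℝ) else 0 : ℝ) : ℂ) with hP
  have hIm : Measurable fun z : ℝ × ℝ => ((if rk τ z.2 ≤ RR S z.1 then (1 : ℝ) else 0 : ℝ) : ℂ) := by
    apply Complex.measurable_ofReal.comp
    exact Measurable.ite (measurableSet_le (hum.comp measurable_snd) (hRm.comp measurable_fst))
      measurable_const measurable_const
  have hI1 : ∀ z : ℝ × ℝ, ‖((if rk τ z.2 ≤ RR S z.1 then (1 : ℝ) else 0 : ℝ) : ℂ)‖ ≤ 1 := by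
    intro z
    split_ifs <;> simp
  have hPm : ∀ m, Measurable (P m) := fun m =>
    (tf_meas M (rs_adm (hAm m) ha) (rs_adm (hBm m) hb)).mul hIm
  have hPi : ∀ m, Integrable (P m) := by
    intro m
    refine (tf_int M hM (rs_adm (hAm m) ha) (rs_adm (hBm m) hb)).norm.mono'
      (hPm m).aestronglyMeasurable (ae_of_all _ fun z => ?_)
    rw [hP]
    simp only
    rw [norm_mul]
    exact mul_le_of_le_one_right (norm_nonneg _) (hI1 z)
  -- partial sums
  have hsum : ∀ (n : ℕ) (z : ℝ × ℝ), ∑ m ∈ Finset.range n, P m z =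
      tf M a b z * ((if rk τ z.2 ≤ RR S z.1 then (1 : ℝ) else 0 : ℝ) : ℂ) *
        ((if 2 * (1 / 2 : ℝ) ^ n < RR S z.1 then (1 : ℝ) else 0 : ℝ) : ℂ) := by
    intro n z
    induction n with
    | zero =>
      rw [Finset.range_zero, Finset.sum_empty, pow_zero, mul_one, if_neg (not_lt.2 (RR_le S z.1))]
      simp
    | succ n ih =>
      rw [Finset.sum_range_succ, ih, hP]
      simp only
      rw [rs_tf]
      by_cases hr : rk τ z.2 ≤ RR S z.1
      · rw [if_pos hr]
        have e1 : 2 * (1 / 2 : ℝ) ^ (n + 1) = (1 / 2) ^ n := by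
          rw [pow_succ]
          ring
        rw [e1]
        have hpn : (0 : ℝ) < (1 / 2) ^ n := by positivity
        by_cases h2 : 2 * (1 / 2 : ℝ) ^ n < RR S z.1
        · have h3 : (1 / 2 : ℝ) ^ n < RR S z.1 := by linarith
          have h4 : z ∉ A n ×ˢ B n := fun h => absurd h.1.2 (not_le.2 h2)
          rw [if_pos h2, if_pos h3, indicator_of_notMem h4]
          simp
        · rw [if_neg h2]
          by_cases h3 : (1 / 2 : ℝ) ^ n < RR S z.1
          · have h4 : z ∈ A n ×ˢ B n := by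
              refine ⟨⟨h3, not_lt.1 h2⟩, ?_⟩
              show rk τ z.2 ≤ 4 * (1 / 2) ^ n
              have := not_lt.1 h2
              linarith
            rw [if_pos h3, indicator_of_mem h4]
            simp
          · have h4 : z ∉ A n ×ˢ B n := fun h => h3 h.1.1
            rw [if_neg h3, indicator_of_notMem h4]
            simp
      · rw [if_neg hr]
        simp
  -- limits
  refine LL_dom q (by linarith) _ (tf M a b) (fun n z => ∑ m ∈ Finset.range n, P m z) hF
    ?_ ?_ ?_ ?_ ?_ _ ?_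
  · apply (hFm.mul hIm).mul
    apply Complex.measurable_ofReal.comp
    exact Measurable.ite (measurableSet_lt measurable_const (hRm.comp measurable_fst))
      measurable_const measurable_const
  · intro n
    exact Finset.measurable_sum _ fun m _ => hPm m
  · intro z
    rw [norm_mul, norm_mul]
    calc ‖tf M a b z‖ * ‖((if rk τ z.2 ≤ RR S z.1 then (1 : ℝ) else 0 : ℝ) : ℂ)‖ *
          ‖((if 0 < RR S z.1 then (1 : ℝ) else 0 : ℝ) : ℂ)‖ ≤ ‖tf M a b z‖ * 1 * 1 := by
          gcongr
          · exact hI1 z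
          · split_ifs <;> simp
      _ = _ := by ring
  · intro n z
    rw [hsum, norm_mul, norm_mul]
    calc ‖tf M a b z‖ * ‖((if rk τ z.2 ≤ RR S z.1 then (1 : ℝ) else 0 : ℝ) : ℂ)‖ *
          ‖((if 2 * (1 / 2 : ℝ) ^ n < RR S z.1 then (1 : ℝ) else 0 : ℝ) : ℂ)‖ ≤ ‖tf M a b z‖ * 1 * 1 := by
          gcongr
          · exact hI1 z
          · split_ifs <;> simp
      _ = _ := by ring
  · intro z
    simp only [hsum]
    apply Tendsto.const_mul
    apply (Complex.continuous_ofReal.tendsto _).comp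
    by_cases h2 : 0 < RR S z.1
    · rw [if_pos h2]
      have h3 : Tendsto (fun n : ℕ => 2 * (1 / 2 : ℝ) ^ n) atTop (𝓝 (2 * 0)) :=
        (tendsto_pow_atTop_nhds_zero_of_lt_one (by norm_num) (by norm_num)).const_mul 2
      rw [mul_zero] at h3
      apply tendsto_const_nhds.congr'
      filter_upwards [h3.eventually_lt_const h2] with n hn
      rw [if_pos hn]
    · rw [if_neg h2]
      apply tendsto_const_nhds.congr
      intro n
      rw [if_neg]
      intro h3
      apply h2
      have : (0 : ℝ) < (1 / 2) ^ n := by positivity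
      linarith
  -- bounds
  intro n
  refine (LL_sum q (by linarith) _ P hPi hPm).trans ?_
  have hb1 : ∀ m, LL q (P m) ≤ ENNReal.ofReal (C * 8 ^ θ * 16 ^ ε * s ^ θ * ρ ^ m) := by
    intro m
    have hm0 : (0 : ℝ) < (1 / 2) ^ m := by positivity
    have ha' := rs_adm (hAm m) ha
    have hb' := rs_adm (hBm m) hb
    have hnn0 := nn_nonneg (rs (A m) a)
    have hbn : nn (rs (B m) b) ≤ 8 * (1 / 2) ^ m := by
      have h2 := (rs_nn (hBm m) hb).trans (rk_low hτ _)
      rw [ENNReal.ofReal_le_ofReal_iff (by positivity)] at h2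
      linarith
    have han : nn (rs (A m) a) ≤ 2 := by
      have h2 := rs_nn (hAm m) ha
      have h3 : mu (A m) ≤ ENNReal.ofReal 2 := by
        rw [show ENNReal.ofReal 2 = 2 by norm_num, ← mu_univ]
        exact measure_mono (subset_univ _)
      have h4 := h2.trans h3
      rwa [ENNReal.ofReal_le_ofReal_iff (by norm_num)] at h4
    have hprod : nn (rs (A m) a) * (1 / 2) ^ m ≤ s := by
      rw [← ENNReal.ofReal_le_ofReal_iff hs, ENNReal.ofReal_mul hnn0]
      refine le_trans ?_ hvol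
      calc ENNReal.ofReal (nn (rs (A m) a)) * ENNReal.ofReal ((1 / 2) ^ m)
          ≤ volume (A m) * ENNReal.ofReal ((1 / 2) ^ m) := by
            gcongr
            exact (rs_nn (hAm m) ha).trans (mu_le _)
        _ = ∫⁻ x, (A m).indicator (fun _ => ENNReal.ofReal ((1 / 2) ^ m)) x := by
            rw [lintegral_indicator (hAm m), setLIntegral_const, mul_comm]
        _ ≤ ∫⁻ x, volume (Prod.mk x ⁻¹' S) := by
            apply lintegral_mono
            intro x
            simp only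
            by_cases hx : x ∈ A m
            · rw [indicator_of_mem hx]
              calc ENNReal.ofReal ((1 / 2) ^ m) ≤ ENNReal.ofReal (RR S x) :=
                    ENNReal.ofReal_le_ofReal hx.1.le
                _ = mu {y | (x, y) ∈ S} := ENNReal.ofReal_toReal (measure_ne_top _ _)
                _ ≤ _ := mu_le _
            · rw [indicator_of_notMem hx]
              exact zero_le
        _ = volume S := by
            rw [Measure.volume_eq_prod, Measure.prod_apply hS]
    set N : ℝ := nn (rs (A m) a) * (8 * (1 / 2) ^ m) with hN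
    have hN0 : 0 ≤ N := by positivity
    have hN1 : N ≤ 8 * s := by rw [hN]; nlinarith
    have hN2 : N ≤ 16 * (1 / 2) ^ m := by rw [hN]; nlinarith
    have h2 := hC H M (rs (A m) a) (rs (B m) b) (RR S) (rk τ) N ((1 / 2) ^ m) hM ha' hb' hRm hum hm0
      hbn le_rfl ?_ (rk_nonneg τ) ?_
    · refine h2.trans (ENNReal.ofReal_le_ofReal ?_)
      have h3 : N ^ ((q - 2) / q) ≤ (8 * s) ^ θ * (16 * (1 / 2) ^ m) ^ ε := by
        have e2 : (q - 2) / q = θ + ε := by rw [hε]; ring
        rw [e2, Real.rpow_add_of_nonneg hN0 h0.le hε0.le]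
        gcongr
      calc C * N ^ ((q - 2) / q) ≤ C * ((8 * s) ^ θ * (16 * (1 / 2) ^ m) ^ ε) := by gcongr
        _ = _ := by
          rw [Real.mul_rpow (by norm_num) hs, Real.mul_rpow (by norm_num) hm0.le,
            ← Real.rpow_natCast (1 / 2) m, ← Real.rpow_mul (by norm_num), hρ,
            ← Real.rpow_natCast ((1 / 2) ^ ε) m, ← Real.rpow_mul (by norm_num), mul_comm (m : ℝ) ε]
          ring
    · intro x hx
      have hx' : x ∈ A m := by
        by_contra hc
        apply hx
        rw [rs_tr, indicator_of_notMem hc]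
      exact hx'.2
    · intro x _ η hη
      exact conc_vol hτ S hnest x η hη
  refine (Finset.sum_le_sum fun m _ => hb1 m).trans ?_
  have hsp : 0 ≤ s ^ θ := by positivity
  rw [← ENNReal.ofReal_sum_of_nonneg (fun m _ => by positivity)]
  apply ENNReal.ofReal_le_ofReal
  rw [← Finset.mul_sum]
  have h5 : ∑ m ∈ Finset.range n, ρ ^ m ≤ (1 - ρ)⁻¹ := by
    rw [← tsum_geometric_of_lt_one hρ0.le hρ1]
    exact (summable_geometric_of_lt_one hρ0.le hρ1).sum_le_tsum _ (fun m _ => by positivity)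
  calc C * 8 ^ θ * 16 ^ ε * s ^ θ * ∑ m ∈ Finset.range n, ρ ^ m
      ≤ C * 8 ^ θ * 16 ^ ε * s ^ θ * (1 - ρ)⁻¹ := by gcongr
    _ = _ := by ring

end Pool.Agent.Y295.NS
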