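import Mathlib
import Pool.Agent.Y295.NS.F
set_option autoImplicit false
set_option linter.unusedSectionVars false

/-! Arbitrary functions with nested sections, and functions with a nested majorant. -/

namespace Pool.Agent.Y295.NS

open MeasureTheory Set Complex Filter Topology
open scoped ENNReal NNReal
open Pool.Agent.TH277.HT

/-- the unit square -/
def Q0 : Set (ℝ × ℝ) := Icc (-1 : ℝ) 1 ×ˢ Icc (-1 : ℝ) 1

lemma Q0_meas : MeasurableSet Q0 := measurableSet_Icc.prod measurableSet_Icc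

lemma Q0_vol : volume Q0 = 4 := by
  unfold Q0
  rw [Measure.volume_eq_prod, Measure.prod_prod, Real.volume_Icc]
  rw [← ENNReal.ofReal_mul (by norm_num)]
  norm_num

lemma int_of {g : ℝ × ℝ → ℝ} (hg : Measurable g) (hg0 : ∀ z, 0 ≤ g z) (hsupp : ∀ z, z ∉ Q0 → g z = 0)
    {p : ℝ} (hp : 1 ≤ p) (hfin : ∫⁻ z, ENNReal.ofReal (g z ^ p) < ⊤) : Integrable g := by
  refine ⟨hg.aestronglyMeasurable, ?_⟩
  rw [hasFiniteIntegral_iff_enorm]
  have h1 : ∀ z, ‖g z‖ₑ ≤ Q0.indicator (fun _ => (1 : ℝ≥0∞)) z + ENNReal.ofReal (g z ^ p) := by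
    intro z
    by_cases hz : z ∈ Q0
    · rw [indicator_of_mem hz, Real.enorm_eq_ofReal (hg0 z), ← ENNReal.ofReal_one,
        ← ENNReal.ofReal_add zero_le_one (Real.rpow_nonneg (hg0 z) _)]
      apply ENNReal.ofReal_le_ofReal
      rcases le_total (g z) 1 with h | h
      · have := Real.rpow_nonneg (hg0 z) p
        linarith
      · have h5 : g z ^ (1 : ℝ) ≤ g z ^ p := Real.rpow_le_rpow_of_exponent_le h hp
        rw [Real.rpow_one] at h5
        linarith
    · rw [hsupp z hz, enorm_zero]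
      exact zero_le
  refine lt_of_le_of_lt (lintegral_mono h1) ?_
  rw [lintegral_add_left (measurable_const.indicator Q0_meas), lintegral_indicator Q0_meas,
    setLIntegral_one, Q0_vol]
  exact ENNReal.add_lt_top.2 ⟨by norm_num, hfin⟩

/-- `L^p` norm -/
noncomputable def Np (p : ℝ) (g : ℝ × ℝ → ℝ) : ℝ≥0∞ := (∫⁻ z, ENNReal.ofReal (g z ^ p)) ^ (1 / p)

lemma LL_zero (q : ℝ) (hq : 0 < q) : LL q (fun _ => 0) = 0 := by
  have h : ∀ p, X (fun _ => (0 : ℂ)) p = 0 := by
    intro p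
    unfold X
    simp
  unfold LL
  simp only [h, enorm_zero]
  rw [ENNReal.zero_rpow_of_pos hq, lintegral_zero, ENNReal.zero_rpow_of_pos (by positivity)]

/-- The bound for nonnegative functions with nested sections. -/
theorem layerG (q : ℝ) (hq : 3 < q) (p : ℝ) (hp : q / (q - 2) < p) :
    ∃ C : ℝ, 0 < C ∧ ∀ (H : Type) [NormedAddCommGroup H] [InnerProductSpace ℂ H] [CompleteSpace H]
    (M : H →L[ℂ] H →L[ℂ] ℂ) (a b : ℝ → H) (τ : ℝ → ℝ) (g : ℝ × ℝ → ℝ),
    ‖M‖ ≤ 1 → Adm a → Adm b → Measurable τ → Measurable g → (∀ z, 0 ≤ g z) →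
    (∀ x v w, τ v ≤ τ w → g (x, w) ≤ g (x, v)) → (∀ z, z ∉ Q0 → g z = 0) →
    LL q (fun z => tf M a b z * (g z : ℂ)) ≤ ENNReal.ofReal C * Np p g := by
  have hq0 : 0 < q := by linarith
  have hq2 : 0 < q - 2 := by linarith
  have hp1 : 1 < p := by
    refine lt_trans ?_ hp
    rw [lt_div_iff₀ hq2]
    linarith
  have hp0 : 0 < p := by linarith
  obtain ⟨C, hC0, hC⟩ := layerN q hq p hp
  refine ⟨C + 1, by linarith, ?_⟩
  intro H _ _ _ M a b τ g hM ha hb hτ hg hg0 hnest hsupp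
  have hFm := tf_meas M ha hb
  set J : ℝ≥0∞ := ∫⁻ z, ENNReal.ofReal (g z ^ p) with hJ
  have hNp : Np p g = J ^ (1 / p) := rfl
  rcases eq_or_ne J ⊤ with ht | ht
  · rw [hNp, ht, ENNReal.top_rpow_of_pos (by positivity), ENNReal.mul_top (by simpa using by linarith)]
    exact le_top
  rcases eq_or_ne J 0 with h0 | h0
  · have h1 : (fun z => tf M a b z * (g z : ℂ)) =ᵐ[volume] fun _ => 0 := by
      rw [hJ, lintegral_eq_zero_iff (hg.pow_const p).ennreal_ofReal] at h0
      filter_upwards [h0] with z hz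
      have h2 : g z ^ p ≤ 0 := by simpa using hz
      have h3 : g z = 0 := by
        by_contra hc
        have h4 : 0 < g z := lt_of_le_of_ne (hg0 z) (Ne.symm hc)
        have : 0 < g z ^ p := by positivity
        linarith
      rw [h3]
      simp
    rw [LL_congr q h1, LL_zero q hq0]
    exact zero_le
  · set N : ℝ := (J ^ (1 / p)).toReal with hN
    have hJp : J ^ (1 / p) ≠ ⊤ := ENNReal.rpow_ne_top_of_nonneg (by positivity) ht
    have hJp0 : J ^ (1 / p) ≠ 0 := by
      intro h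
      rcases ENNReal.rpow_eq_zero_iff.1 h with h | h
      · exact h0 h.1
      · exact ht h.1
    have hN0 : 0 < N := ENNReal.toReal_pos hJp0 hJp
    have hNe : ENNReal.ofReal N = J ^ (1 / p) := ENNReal.ofReal_toReal hJp
    have hg' : Measurable fun z => N⁻¹ * g z := hg.const_mul _
    have h1 := hC H M a b τ (fun z => N⁻¹ * g z) hM ha hb hτ hg'
      (fun z => mul_nonneg (by positivity) (hg0 z))
      (fun x v w hvw => mul_le_mul_of_nonneg_left (hnest x v w hvw) (by positivity))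
      (fun z hz => by rw [hsupp z hz, mul_zero]) ?_
    · have e : (fun z => tf M a b z * (g z : ℂ)) =
          fun z => (N : ℂ) * (tf M a b z * ((N⁻¹ * g z : ℝ) : ℂ)) := by
        ext z
        have hNc : (N : ℂ) ≠ 0 := by exact_mod_cast hN0.ne'
        push_cast
        field_simp
      have hm : Measurable fun z => tf M a b z * ((N⁻¹ * g z : ℝ) : ℂ) :=
        hFm.mul (Complex.measurable_ofReal.comp hg')
      rw [e, LL_smul q (by linarith) _ _ hm]
      have e2 : ‖(N : ℂ)‖ₑ = J ^ (1 / p) := by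
        rw [← ofReal_norm, Complex.norm_real, Real.norm_eq_abs, abs_of_pos hN0, hNe]
      rw [e2, hNp, mul_comm]
      gcongr
      exact h1.trans (ENNReal.ofReal_le_ofReal (by linarith))
    · have e3 : ∀ z, ENNReal.ofReal ((N⁻¹ * g z) ^ p) = ENNReal.ofReal (N⁻¹ ^ p) * ENNReal.ofReal (g z ^ p) := by
        intro z
        rw [Real.mul_rpow (by positivity) (hg0 z), ENNReal.ofReal_mul (by positivity)]
      simp only [e3]
      rw [lintegral_const_mul' _ _ ENNReal.ofReal_ne_top, ← hJ]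
      have e4 : J = ENNReal.ofReal (N ^ p) := by
        rw [← ENNReal.ofReal_rpow_of_nonneg hN0.le hp0.le, hNe, ← ENNReal.rpow_mul,
          one_div_mul_cancel hp0.ne', ENNReal.rpow_one]
      rw [e4, ← ENNReal.ofReal_mul (by positivity), Real.inv_rpow hN0.le,
        inv_mul_cancel₀ (by positivity), ENNReal.ofReal_one]

lemma Np_two {p : ℝ} (hp : 0 < p) {g κ : ℝ × ℝ → ℝ} (hg0 : ∀ z, 0 ≤ g z) (hκ0 : ∀ z, 0 ≤ κ z)
    (h : ∀ z, g z ≤ 2 * κ z) : Np p g ≤ 2 * Np p κ := by
  unfold Np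
  have h1 : ∫⁻ z, ENNReal.ofReal (g z ^ p) ≤ ENNReal.ofReal (2 ^ p) * ∫⁻ z, ENNReal.ofReal (κ z ^ p) := by
    rw [← lintegral_const_mul' _ _ ENNReal.ofReal_ne_top]
    apply lintegral_mono
    intro z
    simp only
    rw [← ENNReal.ofReal_mul (by positivity), ← Real.mul_rpow (by norm_num) (hκ0 z)]
    exact ENNReal.ofReal_le_ofReal (Real.rpow_le_rpow (hg0 z) (h z) hp.le)
  refine (ENNReal.rpow_le_rpow h1 (by positivity)).trans (le_of_eq ?_)
  rw [ENNReal.mul_rpow_of_nonneg _ _ (by positivity), ENNReal.ofReal_rpow_of_nonneg (by positivity) (by positivity),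
    ← Real.rpow_mul (by norm_num), mul_one_div_cancel hp.ne', Real.rpow_one]
  norm_num

lemma Np_mono {p : ℝ} (hp : 0 < p) {g κ : ℝ × ℝ → ℝ} (hg0 : ∀ z, 0 ≤ g z) (h : ∀ z, g z ≤ κ z) :
    Np p g ≤ Np p κ := by
  unfold Np
  apply ENNReal.rpow_le_rpow _ (by positivity)
  apply lintegral_mono
  intro z
  simp only
  exact ENNReal.ofReal_le_ofReal (Real.rpow_le_rpow (hg0 z) (h z) hp.le)

/-- The bound for functions with a nested majorant. -/
theorem kappaG (q : ℝ) (hq : 3 < q) (p : ℝ) (hp : q / (q - 2) < p) :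
    ∃ C : ℝ, 0 < C ∧ ∀ (H : Type) [NormedAddCommGroup H] [InnerProductSpace ℂ H] [CompleteSpace H]
    (M : H →L[ℂ] H →L[ℂ] ℂ) (a b : ℝ → H) (τ : ℝ → ℝ) (κ : ℝ × ℝ → ℝ) (h : ℝ × ℝ → ℂ),
    ‖M‖ ≤ 1 → Adm a → Adm b → Measurable τ → Measurable κ → Measurable h → (∀ z, 0 ≤ κ z) →
    (∀ z, z ∉ Q0 → κ z = 0) → (∀ z, z ∉ Q0 → h z = 0) →
    (∀ x v w, τ v ≤ τ w → ‖h (x, w) - h (x, v)‖ ≤ κ (x, v) - κ (x, w)) →
    LL q (fun z => tf M a b z * h z) ≤ ENNReal.ofReal C * Np p κ := by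
  have hq0 : 0 < q := by linarith
  have hq2 : 0 < q - 2 := by linarith
  have hp1 : 1 < p := by
    refine lt_trans ?_ hp
    rw [lt_div_iff₀ hq2]
    linarith
  have hp0 : 0 < p := by linarith
  obtain ⟨C, hC0, hC⟩ := layerG q hq p hp
  refine ⟨6 * C, by linarith, ?_⟩
  intro H _ _ _ M a b τ κ h hM ha hb hτ hκ hh hκ0 hκs hhs hvar
  have hFm := tf_meas M ha hb
  set J : ℝ≥0∞ := ∫⁻ z, ENNReal.ofReal (κ z ^ p) with hJ
  have hNp : Np p κ = J ^ (1 / p) := rfl
  rcases eq_or_ne J ⊤ with ht | ht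
  · rw [hNp, ht, ENNReal.top_rpow_of_pos (by positivity), ENNReal.mul_top (by simpa using by linarith)]
    exact le_top
  -- pointwise bound
  have hle : ∀ z, ‖h z‖ ≤ κ z := by
    rintro ⟨x, w⟩
    have hout : (x, (10 : ℝ)) ∉ Q0 := by
      intro hc
      have h1 : (10 : ℝ) ≤ 1 := hc.2.2
      norm_num at h1
    rcases le_total (τ 10) (τ w) with h1 | h1
    · have h2 := hvar x 10 w h1
      rw [hκs _ hout, hhs _ hout, sub_zero] at h2
      have h3 := hκ0 (x, w)
      linarith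
    · have h2 := hvar x w 10 h1
      rw [hκs _ hout, hhs _ hout, zero_sub, norm_neg, sub_zero] at h2
      exact h2
  have hre : ∀ z, |(h z).re| ≤ κ z := fun z => (Complex.abs_re_le_norm _).trans (hle z)
  have him : ∀ z, |(h z).im| ≤ κ z := fun z => (Complex.abs_im_le_norm _).trans (hle z)
  have hrem : Measurable fun z => (h z).re := Complex.measurable_re.comp hh
  have himm : Measurable fun z => (h z).im := Complex.measurable_im.comp hh
  set g1 : ℝ × ℝ → ℝ := fun z => (h z).re + κ z with hg1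
  set g3 : ℝ × ℝ → ℝ := fun z => (h z).im + κ z with hg3
  have hg1m : Measurable g1 := hrem.add hκ
  have hg3m : Measurable g3 := himm.add hκ
  have hg10 : ∀ z, 0 ≤ g1 z := fun z => by
    have := (abs_le.1 (hre z)).1
    rw [hg1]
    simp only
    linarith
  have hg30 : ∀ z, 0 ≤ g3 z := fun z => by
    have := (abs_le.1 (him z)).1
    rw [hg3]
    simp only
    linarith
  have hg12 : ∀ z, g1 z ≤ 2 * κ z := fun z => by
    have := (abs_le.1 (hre z)).2
    rw [hg1]
    simp only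
    linarith
  have hg32 : ∀ z, g3 z ≤ 2 * κ z := fun z => by
    have := (abs_le.1 (him z)).2
    rw [hg3]
    simp only
    linarith
  have hg1s : ∀ z, z ∉ Q0 → g1 z = 0 := fun z hz => by
    rw [hg1]
    simp only
    rw [hhs z hz, hκs z hz]
    simp
  have hg3s : ∀ z, z ∉ Q0 → g3 z = 0 := fun z hz => by
    rw [hg3]
    simp only
    rw [hhs z hz, hκs z hz]
    simp
  have hn1 : ∀ x v w, τ v ≤ τ w → g1 (x, w) ≤ g1 (x, v) := by
    intro x v w hvw
    have h1 := hvar x v w hvw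
    have h2 := (abs_le.1 (Complex.abs_re_le_norm (h (x, w) - h (x, v)))).2
    rw [Complex.sub_re] at h2
    rw [hg1]
    simp only
    linarith
  have hn3 : ∀ x v w, τ v ≤ τ w → g3 (x, w) ≤ g3 (x, v) := by
    intro x v w hvw
    have h1 := hvar x v w hvw
    have h2 := (abs_le.1 (Complex.abs_im_le_norm (h (x, w) - h (x, v)))).2
    rw [Complex.sub_im] at h2
    rw [hg3]
    simp only
    linarith
  have hnk : ∀ x v w, τ v ≤ τ w → κ (x, w) ≤ κ (x, v) := by
    intro x v w hvw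
    have h1 := hvar x v w hvw
    have h2 := norm_nonneg (h (x, w) - h (x, v))
    linarith
  have b1 := (hC H M a b τ g1 hM ha hb hτ hg1m hg10 hn1 hg1s).trans
    (mul_le_mul_right (Np_two hp0 hg10 hκ0 hg12) _)
  have b2 := hC H M a b τ κ hM ha hb hτ hκ hκ0 hnk hκs
  have b3 := (hC H M a b τ g3 hM ha hb hτ hg3m hg30 hn3 hg3s).trans
    (mul_le_mul_right (Np_two hp0 hg30 hκ0 hg32) _)
  -- integrability
  have hκi : Integrable κ := int_of hκ hκ0 hκs hp1.le (lt_top_iff_ne_top.2 ht)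
  have hF1 : ∀ z, ‖tf M a b z‖ ≤ 1 := by
    intro z
    refine (tf_le M hM a b z).trans ?_
    have h1 := tr_bd ha z.1
    have h2 := tr_bd hb z.2
    have h3 := norm_nonneg (tr a z.1)
    have h4 := norm_nonneg (tr b z.2)
    nlinarith
  have hInt : ∀ g : ℝ × ℝ → ℝ, Measurable g → (∀ z, 0 ≤ g z) → (∀ z, g z ≤ 2 * κ z) →
      Integrable fun z => tf M a b z * (g z : ℂ) := by
    intro g hgm hg0 hg2
    refine (hκi.const_mul 2).mono' (hFm.mul (Complex.measurable_ofReal.comp hgm)).aestronglyMeasurable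
      (ae_of_all _ fun z => ?_)
    rw [norm_mul, Complex.norm_real, Real.norm_eq_abs, abs_of_nonneg (hg0 z)]
    calc ‖tf M a b z‖ * g z ≤ 1 * (2 * κ z) := mul_le_mul (hF1 z) (hg2 z) (hg0 z) zero_le_one
      _ = _ := one_mul _
  have hMs : ∀ g : ℝ × ℝ → ℝ, Measurable g → Measurable fun z => tf M a b z * (g z : ℂ) := fun g hgm =>
    hFm.mul (Complex.measurable_ofReal.comp hgm)
  have i1 := hInt g1 hg1m hg10 hg12
  have i2 := hInt κ hκ hκ0 (fun z => by linarith [hκ0 z])
  have i3 := hInt g3 hg3m hg30 hg32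
  have m1 := hMs g1 hg1m
  have m2 := hMs κ hκ
  have m3 := hMs g3 hg3m
  have e : (fun z => tf M a b z * h z) = fun z =>
      (tf M a b z * (g1 z : ℂ) + (-1 : ℂ) * (tf M a b z * (κ z : ℂ))) +
        (I * (tf M a b z * (g3 z : ℂ)) + (-I) * (tf M a b z * (κ z : ℂ))) := by
    ext z
    have h1 : h z = ((h z).re : ℂ) + ((h z).im : ℂ) * I := (Complex.re_add_im _).symm
    rw [hg1, hg3]
    simp only
    push_cast
    nth_rewrite 1 [h1]
    ring
  rw [e]
  have c1 : LL q (fun z => (-1 : ℂ) * (tf M a b z * (κ z : ℂ))) ≤ ENNReal.ofReal C * Np p κ := by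
    rw [LL_smul q (by linarith) _ _ m2]
    have : ‖(-1 : ℂ)‖ₑ = 1 := by
      rw [← ofReal_norm, norm_neg, norm_one, ENNReal.ofReal_one]
    rw [this, one_mul]
    exact b2
  have c2 : LL q (fun z => (-I : ℂ) * (tf M a b z * (κ z : ℂ))) ≤ ENNReal.ofReal C * Np p κ := by
    rw [LL_smul q (by linarith) _ _ m2]
    have : ‖(-I : ℂ)‖ₑ = 1 := by
      rw [← ofReal_norm, norm_neg, Complex.norm_I, ENNReal.ofReal_one]
    rw [this, one_mul]
    exact b2
  have c3 : LL q (fun z => I * (tf M a b z * (g3 z : ℂ))) ≤ ENNReal.ofReal C * (2 * Np p κ) := by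
    rw [LL_smul q (by linarith) _ _ m3]
    have : ‖(I : ℂ)‖ₑ = 1 := by
      rw [← ofReal_norm, Complex.norm_I, ENNReal.ofReal_one]
    rw [this, one_mul]
    exact b3
  refine (LL_add q (by linarith) _ _ (i1.add (i2.const_mul _)) ((i3.const_mul _).add (i2.const_mul _))
    (m1.add (m2.const_mul _)) ((m3.const_mul _).add (m2.const_mul _))).trans ?_
  refine (add_le_add (LL_add q (by linarith) _ _ i1 (i2.const_mul _) m1 (m2.const_mul _))
    (LL_add q (by linarith) _ _ (i3.const_mul _) (i2.const_mul _) (m3.const_mul _) (m2.const_mul _))).trans ?_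
  refine (add_le_add (add_le_add b1 c1) (add_le_add c3 c2)).trans (le_of_eq ?_)
  rw [ENNReal.ofReal_mul (by norm_num), show ENNReal.ofReal 6 = 6 by norm_num]
  ring

end Pool.Agent.Y295.NS
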