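import Mathlib
import Pool.Agent.Y295.NS.G
set_option autoImplicit false
set_option linter.unusedSectionVars false

/-! The extension operator of the problem. -/

namespace Pool.Agent.Y295.NS

open MeasureTheory Set Complex Filter Topology
open scoped ENNReal NNReal
open Pool.Agent.TH277.HT

/-- the operator of the problem -/
noncomputable def ex (U : Set (ℝ × ℝ)) (f : ℝ × ℝ → ℂ) (ξ : ℝ × ℝ × ℝ) : ℂ :=
  ∫ x in U, Complex.exp
    (-((x.1 * ξ.1 + x.2 * ξ.2.1 + (x.1 ^ 2 + x.2 ^ 2) * ξ.2.2 : ℝ) : ℂ) * Complex.I) * f x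

/-- rescaling -/
noncomputable def c0 : ℝ := -(1 / (2 * Real.pi))

lemma ex_X (U : Set (ℝ × ℝ)) (f : ℝ × ℝ → ℂ) (hf : ∀ x, x ∉ U → f x = 0) (ξ : ℝ × ℝ × ℝ) :
    ex U f ξ = X f (c0 • ((ξ.1, ξ.2.1), ξ.2.2)) := by
  unfold ex X
  rw [setIntegral_eq_integral_of_forall_compl_eq_zero (fun x hx => by rw [hf x hx, mul_zero])]
  apply integral_congr_ae
  refine ae_of_all _ fun x => ?_
  simp only
  congr 1
  unfold ch c0
  congr 1
  have hpi : (Real.pi : ℂ) ≠ 0 := by exact_mod_cast Real.pi_ne_zero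
  simp only [Prod.smul_mk, smul_eq_mul]
  push_cast
  field_simp
  ring

lemma lint_c0 (Φ : (ℝ × ℝ) × ℝ → ℝ≥0∞) :
    ∫⁻ p : (ℝ × ℝ) × ℝ, Φ (c0 • p) = ENNReal.ofReal ((2 * Real.pi) ^ 3) * ∫⁻ p, Φ p := by
  have hc : c0 ≠ 0 := by
    unfold c0
    have := Real.pi_pos
    rw [neg_ne_zero]
    positivity
  have hfr : Module.finrank ℝ ((ℝ × ℝ) × ℝ) = 3 := by
    simp
  haveI i1 : (volume : Measure (ℝ × ℝ)).IsAddHaarMeasure := by
    rw [Measure.volume_eq_prod]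
    infer_instance
  haveI i2 : (volume : Measure ((ℝ × ℝ) × ℝ)).IsAddHaarMeasure := by
    rw [Measure.volume_eq_prod]
    infer_instance
  have h := Measure.map_addHaar_smul (volume : Measure ((ℝ × ℝ) × ℝ)) hc
  rw [hfr] at h
  have h2 := (Homeomorph.smulOfNeZero c0 hc : ((ℝ × ℝ) × ℝ) ≃ₜ ((ℝ × ℝ) × ℝ)).measurableEmbedding.lintegral_map
    (μ := (volume : Measure ((ℝ × ℝ) × ℝ))) Φ
  have h3 : (⇑(Homeomorph.smulOfNeZero c0 hc : ((ℝ × ℝ) × ℝ) ≃ₜ ((ℝ × ℝ) × ℝ))) =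
      (fun x : (ℝ × ℝ) × ℝ => c0 • x) := rfl
  rw [h3] at h2
  rw [← h2]
  have h4 : Measure.map (fun x : (ℝ × ℝ) × ℝ => c0 • x) (volume : Measure ((ℝ × ℝ) × ℝ)) =
      ENNReal.ofReal |(c0 ^ 3)⁻¹| • (volume : Measure ((ℝ × ℝ) × ℝ)) := h
  rw [h4, lintegral_smul_measure, smul_eq_mul]
  congr 2
  unfold c0
  have := Real.pi_pos
  rw [abs_inv, abs_pow, abs_neg, abs_of_pos (by positivity)]
  rw [one_div, inv_pow, inv_inv]

lemma ex_norm (q : ℝ) (hq : 0 < q) (U : Set (ℝ × ℝ)) (f : ℝ × ℝ → ℂ) (hf : ∀ x, x ∉ U → f x = 0) :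
    eLpNorm (ex U f) (ENNReal.ofReal q) volume =
      ENNReal.ofReal ((2 * Real.pi) ^ 3) ^ (1 / q) * LL q f := by
  rw [eLpNorm_eq_lintegral_rpow_enorm_toReal (by simpa using hq) ENNReal.ofReal_ne_top,
    ENNReal.toReal_ofReal hq.le]
  unfold LL
  rw [← ENNReal.mul_rpow_of_nonneg _ _ (by positivity), ← lint_c0]
  congr 1
  simp only [ex_X U f hf]
  have hmp := (measurePreserving_prodAssoc (volume : Measure ℝ) (volume : Measure ℝ) (volume : Measure ℝ)).symm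
  have h1 := hmp.lintegral_comp_emb (MeasurableEquiv.measurableEmbedding _)
    (fun p : (ℝ × ℝ) × ℝ => ‖X f (c0 • p)‖ₑ ^ q)
  exact h1

end Pool.Agent.Y295.NS
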